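import Pool.Agent.Lib.MP_4c536a_lc.BGD.Base

/-!
# MP_4c536a_lc: the number of guessed bits of a picture

The definitions that occur in the final statement.
-/

set_option autoImplicit false

namespace Pool.Agent.Lib.MP_4c536a_lc.BGU

open Finset
open Pool.Agent.Lib.MP_4c536a_lc.BGD (Pic bord Tile orient)

/-- The next row (or column) towards the corner. -/
def nb (s : Bool) (i : ℕ) : ℕ := if s then i + 1 else i - 1

/-- The number of bits needed to choose the symbol of the cell `(i, j)` (rows and columns counted
from `1`), if its three neighbours towards the corner `z` are known. -/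
noncomputable def cellBits {Γ : Type} (z : Bool × Bool) (Θ : Set (Tile Γ)) {m n : ℕ}
    (p : Pic Γ m n) (i j : ℕ) : ℕ :=
  Nat.clog 2 {x : Γ | orient z Θ (some x) (bord p i (nb z.2 j)) (bord p (nb z.1 i) j)
    (bord p (nb z.1 i) (nb z.2 j))}.ncard

/-- The number of guessed bits of the picture. -/
noncomputable def bits {Γ : Type} (z : Bool × Bool) (Θ : Set (Tile Γ)) {m n : ℕ}
    (p : Pic Γ m n) : ℕ :=
  ∑ i ∈ range m, ∑ j ∈ range n, cellBits z Θ p (i + 1) (j + 1)

end Pool.Agent.Lib.MP_4c536a_lc.BGU
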