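import Pool.Agent.Lib.MP_4c536a_lc.BGU.Defs

/-! # Row CMP of board BGU: a picture with few guessed bits gives a string and pointers (helper65) -/

set_option autoImplicit false

namespace Pool.Agent.Lib.MP_4c536a_lc.BGU

open Finset
open Pool.Agent.Lib.MP_4c536a_lc.BGD (pick exists_pick_eq)

/-- The number of the place `(i, j)`. -/
def cmp_num (R B i j : ℕ) : ℕ := (i / B * R + j / B) * (B * B) + (i % B * B + j % B)

theorem cmp_rc_lt {B : ℕ} (hB : 1 ≤ B) (i j : ℕ) : i % B * B + j % B < B * B := by
  have h1 : i % B < B := Nat.mod_lt _ hB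
  have h2 : j % B < B := Nat.mod_lt _ hB
  have h3 : (i % B + 1) * B ≤ B * B := Nat.mul_le_mul_right _ h1
  nlinarith

theorem cmp_plc {R B : ℕ} (hB : 1 ≤ B) (i j : ℕ) (hj : j / B < R) :
    plc R B (cmp_num R B i j) = (i, j) := by
  have hBB : 0 < B * B := Nat.mul_pos hB hB
  have h1 := cmp_rc_lt hB i j
  have e1 : cmp_num R B i j / (B * B) = i / B * R + j / B := by
    unfold cmp_num
    rw [add_comm, Nat.add_mul_div_right _ _ hBB, Nat.div_eq_of_lt h1, zero_add]
  have e2 : cmp_num R B i j % (B * B) = i % B * B + j % B := by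
    unfold cmp_num
    rw [add_comm, Nat.add_mul_mod_self_right, Nat.mod_eq_of_lt h1]
  have hR : 0 < R := lt_of_le_of_lt (Nat.zero_le _) hj
  have e3 : (i / B * R + j / B) / R = i / B := by
    rw [add_comm, Nat.add_mul_div_right _ _ hR, Nat.div_eq_of_lt hj, zero_add]
  have e4 : (i / B * R + j / B) % R = j / B := by
    rw [add_comm, Nat.add_mul_mod_self_right, Nat.mod_eq_of_lt hj]
  have hc : j % B < B := Nat.mod_lt _ hB
  have e5 : (i % B * B + j % B) / B = i % B := by
    rw [add_comm, Nat.add_mul_div_right _ _ hB, Nat.div_eq_of_lt hc, zero_add]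
  have e6 : (i % B * B + j % B) % B = j % B := by
    rw [add_comm, Nat.add_mul_mod_self_right, Nat.mod_eq_of_lt hc]
  unfold plc
  rw [e1, e2, e3, e4, e5, e6, mul_comm (i / B) B, mul_comm (j / B) B, Nat.div_add_mod,
    Nat.div_add_mod]

theorem cmp_num_lt {R B : ℕ} (hB : 1 ≤ B) (i j : ℕ) (hi : i / B < R) (hj : j / B < R) :
    cmp_num R B i j < R * R * (B * B) := by
  have h1 := cmp_rc_lt hB i j
  have h2 : i / B * R + j / B + 1 ≤ R * R := by
    have : (i / B + 1) * R ≤ R * R := Nat.mul_le_mul_right _ hi
    nlinarith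
  have h3 : (i / B * R + j / B + 1) * (B * B) ≤ R * R * (B * B) := Nat.mul_le_mul_right _ h2
  unfold cmp_num
  nlinarith

/-- The next place in the same row of the block. -/
theorem cmp_num_right {R B : ℕ} (i j : ℕ) (hj : (j + 1) % B ≠ 0) :
    cmp_num R B i j + 1 = cmp_num R B i (j + 1) := by
  have hd : (j + 1) / B = j / B := by
    rw [Nat.succ_div, if_neg, add_zero]
    intro h
    exact hj (Nat.mod_eq_zero_of_dvd h)
  have hm : (j + 1) % B = j % B + 1 := by
    have h1 := Nat.div_add_mod (j + 1) B
    have h2 := Nat.div_add_mod j B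
    rw [hd] at h1
    omega
  unfold cmp_num
  rw [hd, hm]
  ring

/-- The first place of the next row of the block. -/
theorem cmp_num_down {R B : ℕ} (hB : 1 ≤ B) (i j : ℕ) (hi : (i + 1) % B ≠ 0) (hj : j % B = 0) :
    cmp_num R B i (j + (B - 1)) + 1 = cmp_num R B (i + 1) j := by
  have hd : (i + 1) / B = i / B := by
    rw [Nat.succ_div, if_neg, add_zero]
    intro h
    exact hi (Nat.mod_eq_zero_of_dvd h)
  have hm : (i + 1) % B = i % B + 1 := by
    have h1 := Nat.div_add_mod (i + 1) B
    have h2 := Nat.div_add_mod i B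
    rw [hd] at h1
    omega
  have hj1 : (j + (B - 1)) / B = j / B := by
    obtain ⟨q, rfl⟩ := Nat.dvd_of_mod_eq_zero hj
    rw [Nat.mul_add_div (by omega), Nat.mul_div_cancel_left _ (by omega),
      Nat.div_eq_of_lt (by omega), add_zero]
  have hj2 : (j + (B - 1)) % B = B - 1 := by
    obtain ⟨q, rfl⟩ := Nat.dvd_of_mod_eq_zero hj
    rw [Nat.mul_add_mod, Nat.mod_eq_of_lt (by omega)]
  unfold cmp_num
  rw [hd, hm, hj1, hj2, hj, add_zero, add_mul (i % B) 1 B, one_mul]
  omega

/-- Row CMP. -/
theorem cmp_proof (h1 : StrStatement) (h2 : OrdStatement) : CmpStatement := by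
  classical
  intro Γ _ D m n W B hm hn hB hP
  obtain ⟨P, hsome, htile, hW⟩ := hP
  have hnone : ∀ i j, ¬ ((1 ≤ i ∧ i ≤ m) ∧ 1 ≤ j ∧ j ≤ n) → P i j = none := by
    intro i j h
    rw [← hsome i j, Bool.not_eq_true, Option.isSome_eq_false_iff, Option.isNone_iff_eq_none] at h
    exact h
  -- weights and choices
  set w : ℕ → ℕ → ℕ := fun i j => if i < m ∧ j < n then
    cst D (P (i + 1) j) (P i (j + 1)) (P i j) else 0 with hw
  have hex : ∀ i j, ∃ d, d < 2 ^ w i j ∧ (i < m ∧ j < n →
      pick (2 ^ cst D (P (i + 1) j) (P i (j + 1)) (P i j))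
        (fun x => D (some x) (P (i + 1) j) (P i (j + 1)) (P i j)) d = P (i + 1) (j + 1)) := by
    intro i j
    by_cases h : i < m ∧ j < n
    · obtain ⟨x, hx⟩ := Option.isSome_iff_exists.1
        ((hsome (i + 1) (j + 1)).2 ⟨⟨by omega, by omega⟩, by omega, by omega⟩)
      have ht := htile i h.1.le j h.2.le
      rw [hx] at ht
      obtain ⟨d, hd, hp⟩ := exists_pick_eq (k := 2 ^ cst D (P (i + 1) j) (P i (j + 1)) (P i j))
        (p := fun x => D (some x) (P (i + 1) j) (P i (j + 1)) (P i j))
        (Nat.le_pow_clog (by norm_num) _) ht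
      refine ⟨d, ?_, fun _ => by rw [hp, hx]⟩
      rw [hw]
      simp only [h, and_self, if_true]
      exact hd
    · exact ⟨0, Nat.pow_pos (by norm_num), fun h' => absurd h' h⟩
  choose d hd1 hd2 using hex
  -- the order
  set R : ℕ := m + n with hR
  have hR1 : 1 ≤ R := by omega
  have hRB : R ≤ R * B := Nat.le_mul_of_pos_right _ hB
  set K : ℕ := R * R * (B * B) with hK
  obtain ⟨a, ha, hread⟩ := h1 (fun t => w (plc R B t).1 (plc R B t).2)
    (fun t => d (plc R B t).1 (plc R B t).2) (fun t => hd1 _ _) K
  set S : ℕ → ℕ := fun t => ∑ t' ∈ range t, w (plc R B t').1 (plc R B t').2 with hS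
  have hSK : S K ≤ W := by
    have e1 : S K = ∑ i ∈ range (R * B), ∑ j ∈ range (R * B), w i j := h2 R B w hR1 hB
    rw [e1]
    have e2 : ∑ i ∈ range (R * B), ∑ j ∈ range (R * B), w i j =
        ∑ i ∈ range m, ∑ j ∈ range n, w i j := by
      symm
      rw [← Finset.sum_subset (s₁ := range m) (s₂ := range (R * B))]
      · refine Finset.sum_congr rfl fun i hi => ?_
        refine Finset.sum_subset ?_ ?_
        · intro j hj
          rw [mem_range] at hj ⊢
          omega
        · intro j _ hj
          rw [mem_range] at hj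
          rw [hw]
          exact if_neg fun h => hj h.2
      · intro i hi
        rw [mem_range] at hi ⊢
        omega
      · intro i _ hi
        rw [mem_range] at hi
        refine Finset.sum_eq_zero fun j _ => ?_
        rw [hw]
        exact if_neg fun h => hi h.1
    rw [e2]
    refine le_trans (le_of_eq ?_) hW
    refine Finset.sum_congr rfl fun i hi => Finset.sum_congr rfl fun j hj => ?_
    rw [hw]
    exact if_pos ⟨mem_range.1 hi, mem_range.1 hj⟩
  have hSmono : ∀ t, t ≤ K → S t ≤ W := fun t ht =>
    (Finset.sum_le_sum_of_subset (Finset.range_mono ht)).trans hSK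
  set ptr : ℕ → ℕ → ℕ := fun I J => if I < R ∧ J < R then S ((I * R + J) * (B * B)) else 0
    with hptr
  refine ⟨a, ptr, ha.trans_le (Nat.pow_le_pow_right (by norm_num) hSK), ?_, ?_⟩
  · intro I J
    rw [hptr]
    by_cases h : I < R ∧ J < R
    · simp only [h, and_self, if_true]
      refine hSmono _ ?_
      rw [hK]
      refine Nat.mul_le_mul_right _ ?_
      have : (I + 1) * R ≤ R * R := Nat.mul_le_mul_right _ h.1
      nlinarith [h.2]
    · simp only [h, if_false]
      exact Nat.zero_le _
  -- the table
  set T := tabV D a m n B ptr with hT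
  have step : ∀ i j, (∀ j', (T i j').1 = some (P i j') ∧ ∀ i' j'', i = i' + 1 → j' = j'' + 1 →
      i' / B < R → j'' / B < R → (T i j').2 = S (cmp_num R B i' j'' + 1)) →
      ((T (i + 1) j).1 = some (P (i + 1) j) ∧ ∀ j'', j = j'' + 1 →
      i / B < R → j'' / B < R → (T (i + 1) j).2 = S (cmp_num R B i j'' + 1)) →
      ((T (i + 1) (j + 1)).1 = some (P (i + 1) (j + 1)) ∧ (i / B < R → j / B < R →
        (T (i + 1) (j + 1)).2 = S (cmp_num R B i j + 1))) := by
    intro i j hrow hleft
    have e0 : T (i + 1) (j + 1) = cellStep (nextV D) (costV D) a (kind m n i j)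
        (T (i + 1) j).1 (T i j).1 (T i (j + 1)).1
        (if j % B = 0 then (if i % B = 0 then ptr (i / B) (j / B) else (T i (j + B)).2)
          else (T (i + 1) j).2) := tab_succ _ _ _ _ _ _ _ _ _ _
    have hp : i / B < R → j / B < R →
        (if j % B = 0 then (if i % B = 0 then ptr (i / B) (j / B) else (T i (j + B)).2)
          else (T (i + 1) j).2) = S (cmp_num R B i j) := by
      intro hi hj
      by_cases hj0 : j % B = 0
      · rw [if_pos hj0]
        by_cases hi0 : i % B = 0
        · rw [if_pos hi0, hptr]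
          simp only [hi, hj, and_self, if_true]
          unfold cmp_num
          rw [hi0, hj0, zero_mul, add_zero, add_zero]
        · rw [if_neg hi0]
          obtain ⟨i', rfl⟩ : ∃ i', i = i' + 1 := by
            refine ⟨i - 1, ?_⟩
            rcases i with _ | i
            · simp at hi0
            · omega
          have hdi : (i' + 1) / B = i' / B := by
            rw [Nat.succ_div, if_neg, add_zero]
            intro h
            exact hi0 (Nat.mod_eq_zero_of_dvd h)
          have hj1 : (j + (B - 1)) / B = j / B := by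
            obtain ⟨q, rfl⟩ := Nat.dvd_of_mod_eq_zero hj0
            rw [Nat.mul_add_div (by omega), Nat.mul_div_cancel_left _ (by omega),
              Nat.div_eq_of_lt (by omega), add_zero]
          rw [(hrow (j + B)).2 i' (j + (B - 1)) rfl (by omega) (by rw [← hdi]; exact hi)
            (by rw [hj1]; exact hj), cmp_num_down hB i' j hi0 hj0]
      · rw [if_neg hj0]
        obtain ⟨j', rfl⟩ : ∃ j', j = j' + 1 := by
          refine ⟨j - 1, ?_⟩
          rcases j with _ | j
          · simp at hj0
          · omega
        have hdj : (j' + 1) / B = j' / B := by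
          rw [Nat.succ_div, if_neg, add_zero]
          intro h
          exact hj0 (Nat.mod_eq_zero_of_dvd h)
        rw [hleft.2 j' rfl hi (by rw [← hdj]; exact hj), cmp_num_right i j' hj0]
    rw [e0, hleft.1, (hrow j).1, (hrow (j + 1)).1]
    set s := (if j % B = 0 then (if i % B = 0 then ptr (i / B) (j / B) else (T i (j + B)).2)
          else (T (i + 1) j).2) with hs
    have hcost : costV D (kind m n i j) (some (P (i + 1) j)) (some (P i j)) (some (P i (j + 1))) =
        w i j := by
      rw [hw]
      by_cases h : i < m ∧ j < n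
      · have hk : kind m n i j = 0 := if_pos h
        simp only [costV, hk, h, and_self, if_true]
      · have hk : kind m n i j ≠ 0 := by
          unfold kind
          rw [if_neg h]
          split_ifs <;> omega
        simp only [costV, hk, h, if_false]
    refine ⟨?_, ?_⟩
    · show nextV D (kind m n i j) (some (P (i + 1) j)) (some (P i j)) (some (P i (j + 1))) _ = _
      by_cases h : i < m ∧ j < n
      · have hk : kind m n i j = 0 := if_pos h
        have hiR : i / B < R := lt_of_le_of_lt (Nat.div_le_self _ _) (by omega)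
        have hjR : j / B < R := lt_of_le_of_lt (Nat.div_le_self _ _) (by omega)
        have hr := hread (cmp_num R B i j) (cmp_num_lt hB i j hiR hjR)
        simp only [cmp_plc hB i j hjR] at hr
        rw [hcost, hp hiR hjR]
        have hr' : a / 2 ^ S (cmp_num R B i j) % 2 ^ w i j = d i j := hr
        rw [hr', hk]
        have := hd2 i j h
        simp only [nextV, if_true]
        rw [this]
        obtain ⟨x, hx⟩ := Option.isSome_iff_exists.1
          ((hsome (i + 1) (j + 1)).2 ⟨⟨by omega, by omega⟩, by omega, by omega⟩)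
        rw [hx]
        rfl
      · have hPn : P (i + 1) (j + 1) = none := hnone _ _ (by omega)
        rw [hPn]
        by_cases h' : i ≤ m ∧ j ≤ n
        · have hk : kind m n i j = 1 := by
            unfold kind
            rw [if_neg h, if_pos h']
          have ht := htile i h'.1 j h'.2
          rw [hPn] at ht
          rw [hk]
          simp only [nextV, one_ne_zero, if_false, if_true, ht]
        · have hk : kind m n i j = 2 := by
            unfold kind
            rw [if_neg h, if_neg h']
          rw [hk]
          simp only [nextV, OfNat.ofNat_ne_zero, OfNat.ofNat_ne_one, if_false]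
    · intro hi hj
      show s + costV D (kind m n i j) (some (P (i + 1) j)) (some (P i j)) (some (P i (j + 1))) = _
      rw [hcost, hp hi hj]
      have : S (cmp_num R B i j + 1) = S (cmp_num R B i j) + w i j := by
        rw [hS]
        simp only
        rw [sum_range_succ, cmp_plc hB i j hj]
      rw [this]
  have main : ∀ i j, (T i j).1 = some (P i j) ∧ ∀ i' j'', i = i' + 1 → j = j'' + 1 →
      i' / B < R → j'' / B < R → (T i j).2 = S (cmp_num R B i' j'' + 1) := by
    intro i
    induction i with
    | zero =>
      intro j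
      refine ⟨?_, fun i' _ h => by omega⟩
      have e : T 0 j = (some none, 0) := tab_zero_left _ _ _ _ _ _ _ _ _
      rw [e, hnone 0 j (by omega)]
    | succ i ihi =>
      intro j
      induction j with
      | zero =>
        refine ⟨?_, fun i' j' _ h => by omega⟩
        have e : T (i + 1) 0 = (some none, 0) := tab_zero_right _ _ _ _ _ _ _ _ _
        rw [e, hnone (i + 1) 0 (by omega)]
      | succ j ihj =>
        have h := step i j ihi ⟨ihj.1, fun j'' h1 h2 h3 => ihj.2 i j'' rfl h1 h2 h3⟩
        refine ⟨h.1, fun i' j'' e1 e2 h1 h2 => ?_⟩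
        have e1' : i' = i := by omega
        have e2' : j'' = j := by omega
        subst e1' e2'
        exact h.2 h1 h2
  intro M M' hM hM'
  rw [(main (M + 1) (M' + 1)).1, hnone (M + 1) (M' + 1) (by omega)]

end Pool.Agent.Lib.MP_4c536a_lc.BGU
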