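import Pool.Agent.Lib.MP_4c536a_lc.BGU.Defs
import Pool.Agent.Lib.MP_2eed13_lc.LCA.H27.Code

/-!
# COD: every rule can be coded by numbers
-/

set_option autoImplicit false

namespace Pool.Agent.Lib.MP_4c536a_lc.BGU

open Finset
open Pool.Agent.Lib.MP_2eed13_lc.LCA

/-- Codes of the values. -/
def cod_enc {Γ : Type} (ι : Γ → ℕ) : Option (Option Γ) → ℕ
  | none => 1
  | some none => 0
  | some (some x) => ι x + 2

theorem cod_enc_inj {Γ : Type} {ι : Γ → ℕ} (hι : Function.Injective ι) :
    Function.Injective (cod_enc ι) := by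
  intro x y h
  match x, y with
  | none, none => rfl
  | none, some none => simp [cod_enc] at h
  | none, some (some y) => simp only [cod_enc] at h; omega
  | some none, none => simp [cod_enc] at h
  | some none, some none => rfl
  | some none, some (some y) => simp only [cod_enc] at h; omega
  | some (some x), none => simp only [cod_enc] at h; omega
  | some (some x), some none => simp only [cod_enc] at h; omega
  | some (some x), some (some y) =>
    simp only [cod_enc] at h
    rw [hι (by omega : ι x = ι y)]

theorem cod_cost_le {Γ : Type} [Finite Γ] (D : Option Γ → Option Γ → Option Γ → Option Γ → Prop)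
    (g : ℕ) (hg : Nat.card Γ = g) (v : ℕ) (l o r : Option (Option Γ)) : costV D v l o r ≤ g := by
  have h1 : ∀ a b c, cst D a b c ≤ g := by
    intro a b c
    refine Nat.clog_le_of_le_pow ?_
    have h2 : {x : Γ | D (some x) a b c}.ncard ≤ g := by
      rw [← hg]
      exact Set.ncard_le_card _
    exact h2.trans Nat.lt_two_pow_self.le
  unfold costV
  split
  · split_ifs
    · exact h1 _ _ _
    · exact Nat.zero_le _
  · exact Nat.zero_le _

theorem cod_proof : CodStatement := by
  classical
  intro Γ _ D
  obtain ⟨g, ⟨e⟩⟩ := Finite.exists_equiv_fin Γ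
  have hg : Nat.card Γ = g := by rw [Nat.card_congr e, Nat.card_fin]
  let ι : Γ → ℕ := fun x => (e x : ℕ)
  have hι : Function.Injective ι := fun a b h => e.injective (Fin.ext h)
  have hm : ∀ x, ι x < g := fun x => (e x).2
  obtain ⟨K, hK⟩ : ∃ K, K = 2 ^ (g + 3) := ⟨_, rfl⟩
  have h2g : 8 * 2 ^ g = K := by rw [hK, pow_add]; ring
  have hgK : 8 * (g + 1) ≤ K := by
    have h1 : g < 2 ^ g := Nat.lt_two_pow_self
    omega
  have hpos : 0 < K := by omega
  have hlt : ∀ x, cod_enc ι x < K := by
    intro x
    match x with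
    | none => simp only [cod_enc]; omega
    | some none => simp only [cod_enc]; omega
    | some (some x) =>
      have := hm x
      simp only [cod_enc]; omega
  let E : ℕ → Option (Option Γ) := Function.invFun (cod_enc ι)
  have hE : ∀ x, E (cod_enc ι x) = x := Function.leftInverse_invFun (cod_enc_inj hι)
  have hcost : ∀ v l o r, costV D v l o r < K := by
    intro v l o r
    have := cod_cost_le D g hg v l o r
    omega
  have hcost2 : ∀ v l o r, 2 ^ costV D v l o r ≤ K := by
    intro v l o r
    have h1 := cod_cost_le D g hg v l o r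
    have h2 : 2 ^ costV D v l o r ≤ 2 ^ g := Nat.pow_le_pow_right (by norm_num) h1
    omega
  let F : ℕ → Option (Option Γ) → Option (Option Γ) → Option (Option Γ) → ℕ → ℕ :=
    fun v l o r d => if v < 3 then cod_enc ι (nextV D v l o r d) else costV D (v - 3) l o r
  have hF : ∀ v l o r d, F v l o r d < K := by
    intro v l o r d
    show (if v < 3 then cod_enc ι (nextV D v l o r d) else costV D (v - 3) l o r) < K
    split_ifs
    · exact hlt _
    · exact hcost _ _ _ _
  let f : ℕ → ℕ := fun i => F (i % K) (E (i / K / K / K / K)) (E (i / K / K / K % K))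
    (E (i / K / K % K)) (i / K % K)
  have hkey : ∀ (l o r : Option (Option Γ)) (d v : ℕ), d < K → v < K →
      rule5 K (∑ i ∈ range (K ^ 5), f i * K ^ i) (cod_enc ι l) (cod_enc ι o) (cod_enc ι r) d v =
        F v l o r d := by
    intro l o r d v hd hv
    have hl := hlt l
    have ho := hlt o
    have hr := hlt r
    unfold rule5
    have h2 : cod_enc ι l * K + cod_enc ι o + 1 ≤ K * K := by
      calc cod_enc ι l * K + cod_enc ι o + 1 ≤ cod_enc ι l * K + K := by omega
        _ = (cod_enc ι l + 1) * K := by ring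
        _ ≤ K * K := Nat.mul_le_mul_right _ hl
    have h3 : (cod_enc ι l * K + cod_enc ι o) * K + cod_enc ι r + 1 ≤ K * K * K := by
      calc (cod_enc ι l * K + cod_enc ι o) * K + cod_enc ι r + 1
          ≤ (cod_enc ι l * K + cod_enc ι o) * K + K := by omega
        _ = (cod_enc ι l * K + cod_enc ι o + 1) * K := by ring
        _ ≤ (K * K) * K := Nat.mul_le_mul_right _ h2
    have h4 : ((cod_enc ι l * K + cod_enc ι o) * K + cod_enc ι r) * K + d + 1 ≤
        K * K * K * K := by
      calc ((cod_enc ι l * K + cod_enc ι o) * K + cod_enc ι r) * K + d + 1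
          ≤ ((cod_enc ι l * K + cod_enc ι o) * K + cod_enc ι r) * K + K := by omega
        _ = ((cod_enc ι l * K + cod_enc ι o) * K + cod_enc ι r + 1) * K := by ring
        _ ≤ (K * K * K) * K := Nat.mul_le_mul_right _ h3
    have hidx : (((cod_enc ι l * K + cod_enc ι o) * K + cod_enc ι r) * K + d) * K + v <
        K ^ 5 := by
      calc (((cod_enc ι l * K + cod_enc ι o) * K + cod_enc ι r) * K + d) * K + v
          < (((cod_enc ι l * K + cod_enc ι o) * K + cod_enc ι r) * K + d) * K + K := by omega
        _ = (((cod_enc ι l * K + cod_enc ι o) * K + cod_enc ι r) * K + d + 1) * K := by ring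
        _ ≤ (K * K * K * K) * K := Nat.mul_le_mul_right _ h4
        _ = K ^ 5 := by ring
    rw [H27.dig_sum _ _ f (fun i => hF _ _ _ _ _) _ hidx]
    have q1 : ∀ x y, y < K → (x * K + y) / K = x := by
      intro x y hy
      rw [Nat.mul_comm, Nat.mul_add_div hpos, Nat.div_eq_of_lt hy, Nat.add_zero]
    have q2 : ∀ x y, y < K → (x * K + y) % K = y := by
      intro x y hy
      rw [Nat.mul_comm, Nat.mul_add_mod, Nat.mod_eq_of_lt hy]
    have e1 := q1 (((cod_enc ι l * K + cod_enc ι o) * K + cod_enc ι r) * K + d) v hv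
    have e2 := q2 (((cod_enc ι l * K + cod_enc ι o) * K + cod_enc ι r) * K + d) v hv
    have e3 := q1 ((cod_enc ι l * K + cod_enc ι o) * K + cod_enc ι r) d hd
    have e4 := q2 ((cod_enc ι l * K + cod_enc ι o) * K + cod_enc ι r) d hd
    have e5 := q1 (cod_enc ι l * K + cod_enc ι o) (cod_enc ι r) hr
    have e6 := q2 (cod_enc ι l * K + cod_enc ι o) (cod_enc ι r) hr
    have e7 := q1 (cod_enc ι l) (cod_enc ι o) ho
    have e8 := q2 (cod_enc ι l) (cod_enc ι o) ho
    show F (((((cod_enc ι l * K + cod_enc ι o) * K + cod_enc ι r) * K + d) * K + v) % K)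
      (E (((((cod_enc ι l * K + cod_enc ι o) * K + cod_enc ι r) * K + d) * K + v) / K / K / K / K))
      (E (((((cod_enc ι l * K + cod_enc ι o) * K + cod_enc ι r) * K + d) * K + v) / K / K / K % K))
      (E (((((cod_enc ι l * K + cod_enc ι o) * K + cod_enc ι r) * K + d) * K + v) / K / K % K))
      (((((cod_enc ι l * K + cod_enc ι o) * K + cod_enc ι r) * K + d) * K + v) / K % K) = _
    rw [e1, e2, e3, e4, e5, e6, e7, e8, hE, hE, hE]
  obtain ⟨T, hT⟩ : ∃ T, T = ∑ i ∈ range (K ^ 5), f i * K ^ i := ⟨_, rfl⟩
  rw [← hT] at hkey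
  have hnext : ∀ (v : ℕ) (l o r : Option (Option Γ)) (d : ℕ), v < 3 → d < K →
      nextN K T v (cod_enc ι l) (cod_enc ι o) (cod_enc ι r) d =
        cod_enc ι (nextV D v l o r d) := by
    intro v l o r d hv hd
    unfold nextN
    rw [hkey l o r d v hd (by omega)]
    exact if_pos hv
  have hcst : ∀ (v : ℕ) (l o r : Option (Option Γ)), v < 3 →
      costN K T v (cod_enc ι l) (cod_enc ι o) (cod_enc ι r) = costV D v l o r := by
    intro v l o r hv
    unfold costN
    rw [hkey l o r 0 (v + 3) hpos (by omega)]
    show (if v + 3 < 3 then cod_enc ι (nextV D (v + 3) l o r 0)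
      else costV D (v + 3 - 3) l o r) = _
    rw [if_neg (by omega), Nat.add_sub_cancel]
  refine ⟨g + 3, T, cod_enc ι, by omega, rfl, rfl, ?_, ?_⟩
  · intro v l o r
    rw [← hK]
    exact Nat.mod_lt _ hpos
  · rw [← hK]
    intro a m n B ptr i
    unfold tabN tabV
    have hkind : ∀ i j, kind m n i j < 3 := by
      intro i j
      unfold kind
      split_ifs <;> omega
    induction i with
    | zero =>
      intro j
      rw [tab_zero_left, tab_zero_left]
      rfl
    | succ i ih =>
      intro j
      induction j with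
      | zero =>
        rw [tab_zero_right, tab_zero_right]
        rfl
      | succ j ih' =>
        rw [tab_succ, tab_succ, ih, ih, ih, ih']
        unfold cellStep
        dsimp only
        rw [hcst _ _ _ _ (hkind i j), hnext _ _ _ _ _ (hkind i j)
          (lt_of_lt_of_le (Nat.mod_lt _ (by positivity)) (hcost2 _ _ _ _))]

end Pool.Agent.Lib.MP_4c536a_lc.BGU
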