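import Pool.Agent.Lib.MP_4c536a_lc.BGU.Defs
import Pool.Agent.Lib.MP_4c536a_lc.BGD.Red

/-!
# MP_4c536a_lc, board BGU: row COR (one rule for the four corners)
-/

set_option autoImplicit false

namespace Pool.Agent.Lib.MP_4c536a_lc.BGU

open Finset
open Pool.Agent.Lib.MP_2eed13_lc.LCA
open Pool.Agent.Lib.MP_4c536a_lc.BGD (Pic bord Tile InLocal frontier bgrid tileAt orient HasPic IsCS
  pick LbaStatement RedStatement UnaStatement)

/-- Reflection of a coordinate. -/
def cor_rf (z : Bool) (m i : ℕ) : ℕ := if z then m + 1 - i else i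

theorem cor_bord_isSome {Γ : Type} {m n : ℕ} (p : Pic Γ m n) (i j : ℕ) :
    (bord p i j).isSome ↔ (1 ≤ i ∧ i ≤ m) ∧ 1 ≤ j ∧ j ≤ n := by
  unfold bord
  split_ifs with h
  · simp [h]
  · simp [h]

theorem cor_rf_mem (z : Bool) (m i : ℕ) :
    (1 ≤ cor_rf z m i ∧ cor_rf z m i ≤ m) ↔ 1 ≤ i ∧ i ≤ m := by
  unfold cor_rf
  cases z
  · simp
  · simp only [if_true]
    omega

theorem cor_rf_nb (z : Bool) (m i : ℕ) (hi : i ≤ m) :
    cor_rf z m i = nb z (cor_rf z m (i + 1)) := by
  unfold cor_rf nb
  cases z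
  · simp
  · simp only [if_true]
    omega

theorem cor_tile_eq {Γ : Type} (z : Bool × Bool) (m n : ℕ) (B : ℕ → ℕ → Option Γ) (i j : ℕ)
    (hi : i ≤ m) (hj : j ≤ n) :
    tileAt z (B (cor_rf z.1 m (i + 1)) (cor_rf z.2 n (j + 1)))
      (B (cor_rf z.1 m (i + 1)) (cor_rf z.2 n j)) (B (cor_rf z.1 m i) (cor_rf z.2 n (j + 1)))
      (B (cor_rf z.1 m i) (cor_rf z.2 n j)) =
      fun r s => B ((if z.1 then m - i else i) + r.toNat) ((if z.2 then n - j else j) + s.toNat) := by
  have h1 : m + 1 - (i + 1) = m - i := by omega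
  have h2 : m + 1 - i = m - i + 1 := by omega
  have h3 : n + 1 - (j + 1) = n - j := by omega
  have h4 : n + 1 - j = n - j + 1 := by omega
  obtain ⟨z1, z2⟩ := z
  funext r s
  cases z1 <;> cases z2 <;> cases r <;> cases s <;>
    simp [tileAt, cor_rf, h1, h2, h3, h4]

/-- The rule on symbols with a corner. -/
def cor_D {Γ : Type} (Θ : Set (Tile Γ)) (far a b c : Option ((Bool × Bool) × Γ)) : Prop :=
  ∃ z, (∀ x, far = some x → x.1 = z) ∧ (∀ x, a = some x → x.1 = z) ∧
    (∀ x, b = some x → x.1 = z) ∧ (∀ x, c = some x → x.1 = z) ∧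
    orient z Θ (far.map Prod.snd) (a.map Prod.snd) (b.map Prod.snd) (c.map Prod.snd)

theorem cor_sound {Γ : Type} (Θ : Set (Tile Γ)) (m n : ℕ) (hm : 1 ≤ m) (hn : 1 ≤ n)
    (h : HasPic (cor_D Θ) m n) : ∃ p : Pic Γ m n, InLocal Θ p := by
  obtain ⟨P, hP1, hP2⟩ := h
  have hsome : ∀ i j, 1 ≤ i → i ≤ m → 1 ≤ j → j ≤ n → ∃ x, P i j = some x := by
    intro i j h1 h2 h3 h4
    exact Option.isSome_iff_exists.1 ((hP1 i j).2 ⟨⟨h1, h2⟩, h3, h4⟩)
  obtain ⟨x0, hx0⟩ := hsome 1 1 le_rfl hm le_rfl hn
  -- the corner is constant in the first column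
  have hcol : ∀ i x, 1 ≤ i → i ≤ m → P i 1 = some x → x.1 = x0.1 := by
    intro i
    induction i with
    | zero => intro x h1; omega
    | succ i ih =>
      intro x _ h2 hx
      rcases i with _ | i
      · rw [hx0] at hx
        rw [Option.some.inj hx]
      · obtain ⟨y, hy⟩ := hsome (i + 1) 1 (by omega) (by omega) le_rfl hn
        have hyz := ih y (by omega) (by omega) hy
        obtain ⟨z, h3, h4, h5, h6, -⟩ := hP2 (i + 1) (by omega) 1 hn
        rw [← hyz, h6 y hy, h4 x hx]
  have hrow : ∀ j i x, 1 ≤ i → i ≤ m → 1 ≤ j → j ≤ n → P i j = some x → x.1 = x0.1 := by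
    intro j
    induction j with
    | zero => intro i x _ _ h1; omega
    | succ j ih =>
      intro i x hi hi' _ h2 hx
      rcases j with _ | j
      · exact hcol i x hi hi' hx
      · obtain ⟨y, hy⟩ := hsome i (j + 1) hi hi' (by omega) (by omega)
        have hyz := ih i y hi hi' (by omega) (by omega) hy
        obtain ⟨z, h3, h4, h5, h6, -⟩ := hP2 i hi' (j + 1) (by omega)
        rw [← hyz, h6 y hy, h5 x hx]
  refine (BGD.red_proof Γ x0.1 Θ m n hm hn).2 ⟨fun i j => (P i j).map Prod.snd, ?_, ?_⟩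
  · intro i j
    rw [Option.isSome_map]
    exact hP1 i j
  · intro i hi j hj
    obtain ⟨z, h3, h4, h5, h6, h7⟩ := hP2 i hi j hj
    have hz : z = x0.1 := by
      rcases Nat.lt_or_ge i m with him | him
      · rcases Nat.lt_or_ge j n with hjn | hjn
        · obtain ⟨x, hx⟩ := hsome (i + 1) (j + 1) (by omega) him (by omega) hjn
          rw [← h3 x hx, hrow _ _ x (by omega) him (by omega) hjn hx]
        · obtain ⟨x, hx⟩ := hsome (i + 1) j (by omega) him (by omega) hj
          rw [← h4 x hx, hrow _ _ x (by omega) him (by omega) hj hx]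
      · rcases Nat.lt_or_ge j n with hjn | hjn
        · obtain ⟨x, hx⟩ := hsome i (j + 1) (by omega) hi (by omega) hjn
          rw [← h5 x hx, hrow _ _ x (by omega) hi (by omega) hjn hx]
        · obtain ⟨x, hx⟩ := hsome i j (by omega) hi (by omega) hj
          rw [← h6 x hx, hrow _ _ x (by omega) hi (by omega) hj hx]
    rw [← hz]
    exact h7

theorem cor_sum_rf (z : Bool) (m : ℕ) (f : ℕ → ℕ) :
    ∑ i ∈ range m, f (cor_rf z m (i + 1)) = ∑ i ∈ range m, f (i + 1) := by
  unfold cor_rf
  cases z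
  · simp
  · simp only [if_true]
    rw [← Finset.sum_range_reflect (fun i => f (i + 1)) m]
    refine sum_congr rfl fun i hi => ?_
    have hi' := mem_range.1 hi
    show f (m + 1 - (i + 1)) = f (m - 1 - i + 1)
    congr 1
    omega

theorem cor_proof : CorStatement := by
  classical
  intro Γ _ Θ
  refine ⟨(Bool × Bool) × Γ, inferInstance, cor_D Θ,
    Nat.clog 2 (Nat.card ((Bool × Bool) × Γ)), fun m n hm hn => ⟨cor_sound Θ m n hm hn, ?_⟩⟩
  intro p z hp
  set K := Nat.clog 2 (Nat.card ((Bool × Bool) × Γ)) with hK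
  let B : ℕ → ℕ → Option Γ := fun i j => bord p (cor_rf z.1 m i) (cor_rf z.2 n j)
  let P : ℕ → ℕ → Option ((Bool × Bool) × Γ) := fun i j => (B i j).map fun x => (z, x)
  have hfst : ∀ i j x, P i j = some x → x.1 = z := by
    intro i j x hx
    simp only [P, Option.map_eq_some_iff] at hx
    obtain ⟨y, -, rfl⟩ := hx
    rfl
  have hsnd : ∀ i j, (P i j).map Prod.snd = B i j := by
    intro i j
    simp only [P, Option.map_map]
    exact Option.map_id'
  have hB : ∀ i j, (B i j).isSome ↔ (1 ≤ i ∧ i ≤ m) ∧ 1 ≤ j ∧ j ≤ n := by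
    intro i j
    simp only [B]
    rw [cor_bord_isSome, cor_rf_mem, cor_rf_mem]
  have hPs : ∀ i j, (P i j).isSome ↔ (1 ≤ i ∧ i ≤ m) ∧ 1 ≤ j ∧ j ≤ n := by
    intro i j
    simp only [P, Option.isSome_map]
    exact hB i j
  refine ⟨P, hPs, ?_, ?_⟩
  · intro i hi j hj
    refine ⟨z, hfst _ _, hfst _ _, hfst _ _, hfst _ _, ?_⟩
    rw [hsnd, hsnd, hsnd, hsnd]
    unfold orient
    simp only [B]
    rw [cor_tile_eq z m n (bord p) i j hi hj]
    apply hp
    · cases z.1 <;> simp <;> omega
    · cases z.2 <;> simp <;> omega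
  · -- the number of bits
    have hcell : ∀ i j, i < m → j < n → cst (cor_D Θ) (P (i + 1) j) (P i (j + 1)) (P i j) ≤
        cellBits z Θ p (cor_rf z.1 m (i + 1)) (cor_rf z.2 n (j + 1)) +
          (if i = 0 then (if j = 0 then K else 0) else 0) := by
      intro i j hi hj
      by_cases h00 : i = 0 ∧ j = 0
      · obtain ⟨rfl, rfl⟩ := h00
        rw [if_pos rfl, if_pos rfl]
        refine le_trans ?_ (Nat.le_add_left _ _)
        unfold cst
        rw [hK]
        refine Nat.clog_mono_right 2 ?_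
        rw [← Set.ncard_univ]
        exact Set.ncard_le_ncard (Set.subset_univ _) (Set.toFinite _)
      · refine le_trans ?_ (Nat.le_add_right _ _)
        unfold cst cellBits
        refine Nat.clog_mono_right 2 ?_
        have hsub : {x : (Bool × Bool) × Γ | cor_D Θ (some x) (P (i + 1) j) (P i (j + 1)) (P i j)} ⊆
            (fun y => (z, y)) '' {x : Γ | orient z Θ (some x)
              (bord p (cor_rf z.1 m (i + 1)) (nb z.2 (cor_rf z.2 n (j + 1))))
              (bord p (nb z.1 (cor_rf z.1 m (i + 1))) (cor_rf z.2 n (j + 1)))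
              (bord p (nb z.1 (cor_rf z.1 m (i + 1))) (nb z.2 (cor_rf z.2 n (j + 1))))} := by
          rintro x ⟨z', h1, h2, h3, h4, h5⟩
          have hz : z' = z := by
            rcases Nat.eq_zero_or_pos j with hj0 | hj0
            · have hi0 : 1 ≤ i := by
                by_contra hcon
                exact h00 ⟨by omega, hj0⟩
              obtain ⟨y, hy⟩ := Option.isSome_iff_exists.1
                ((hPs i (j + 1)).2 ⟨⟨hi0, by omega⟩, by omega, by omega⟩)
              rw [← h3 y hy, hfst _ _ y hy]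
            · obtain ⟨y, hy⟩ := Option.isSome_iff_exists.1
                ((hPs (i + 1) j).2 ⟨⟨by omega, by omega⟩, by omega, by omega⟩)
              rw [← h2 y hy, hfst _ _ y hy]
          subst hz
          refine ⟨x.2, ?_, ?_⟩
          · rw [hsnd, hsnd, hsnd] at h5
            simp only [B] at h5
            rw [cor_rf_nb z'.2 n j (by omega), cor_rf_nb z'.1 m i (by omega)] at h5
            exact h5
          · have hx1 := h1 x rfl
            show (z', x.2) = x
            rw [← hx1]
        refine le_trans (Set.ncard_le_ncard hsub (Set.toFinite _)) ?_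
        exact Set.ncard_image_le (Set.toFinite _)
    refine le_trans (sum_le_sum fun i hi => sum_le_sum fun j hj =>
      hcell i j (mem_range.1 hi) (mem_range.1 hj)) ?_
    have e1 : ∑ i ∈ range m, ∑ j ∈ range n,
        (cellBits z Θ p (cor_rf z.1 m (i + 1)) (cor_rf z.2 n (j + 1)) +
          (if i = 0 then (if j = 0 then K else 0) else 0)) = bits z Θ p + K := by
      simp only [sum_add_distrib]
      congr 1
      · unfold bits
        rw [← cor_sum_rf z.1 m (fun i => ∑ j ∈ range n, cellBits z Θ p i (j + 1))]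
        refine sum_congr rfl fun i _ => ?_
        exact cor_sum_rf z.2 n (fun j => cellBits z Θ p (cor_rf z.1 m (i + 1)) j)
      · rw [Finset.sum_eq_single 0]
        · rw [Finset.sum_eq_single 0]
          · simp
          · intro j _ hj
            simp [hj]
          · intro h
            exact absurd (mem_range.2 hn) h
        · intro i _ hi
          simp [hi]
        · intro h
          exact absurd (mem_range.2 hm) h
    rw [e1]

end Pool.Agent.Lib.MP_4c536a_lc.BGU
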