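import Pool.Agent.Lib.MP_4c536a_lc.BGD.Defs
import Pool.Agent.Lib.MP_4c536a_lc.BG.Defs
import Pool.Agent.Lib.MP_4c536a_lc.BGU.Base

/-!
# MP_4c536a_lc, board BGU: bounded-grid frontier languages with linearly many guessed bits

Definitions and statements of the rows.  Paper: `Paper.md` in this folder.
-/

set_option autoImplicit false

namespace Pool.Agent.Lib.MP_4c536a_lc.BGU

open Finset
open Pool.Agent.Lib.MP_2eed13_lc.LCA
open Pool.Agent.Lib.MP_4c536a_lc.BGD (Pic bord Tile InLocal frontier bgrid tileAt orient HasPic IsCS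
  pick LbaStatement RedStatement UnaStatement)
open Pool.Agent.Lib.MP_4c536a_lc.BG (mainG EvalGStatement)

/-! ## 1. Pictures -/

/-- The theorem: for every `k` there is a unary context-sensitive language that is not the frontier
language of any tile set for which every long word has a picture with at most `k * length` guessed
bits. -/
def MainStatement : Prop :=
  ∀ k : ℕ, ∃ L : Set (List Unit), IsCS L ∧ [] ∉ L ∧
    ∀ (Γ : Type) [Finite Γ] (Θ : Set (Tile Γ)) (π : Γ → Unit) (N : ℕ),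
      (∀ w ∈ L, N ≤ w.length → ∃ (m n : ℕ) (hm : 0 < m) (hn : 0 < n) (p : Pic Γ m n)
        (z : Bool × Bool), InLocal Θ p ∧ w = (frontier hm hn p).map π ∧
          bits z Θ p ≤ k * w.length) → bgrid Θ π ≠ L

/-- The bits needed at a cell. -/
noncomputable def cst {Γ : Type} (D : Option Γ → Option Γ → Option Γ → Option Γ → Prop)
    (a b c : Option Γ) : ℕ := Nat.clog 2 {x : Γ | D (some x) a b c}.ncard

/-- A bordered picture in coordinates counted from the corner with at most `W` guessed bits. -/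
def HasPicW {Γ : Type} (D : Option Γ → Option Γ → Option Γ → Option Γ → Prop) (m n W : ℕ) : Prop :=
  ∃ P : ℕ → ℕ → Option Γ, (∀ i j, (P i j).isSome ↔ (1 ≤ i ∧ i ≤ m) ∧ 1 ≤ j ∧ j ≤ n) ∧
    (∀ i ≤ m, ∀ j ≤ n, D (P (i + 1) (j + 1)) (P (i + 1) j) (P i (j + 1)) (P i j)) ∧
    ∑ i ∈ range m, ∑ j ∈ range n, cst D (P (i + 1) j) (P i (j + 1)) (P i j) ≤ W

/-- Row COR: one rule for the four corners. -/
def CorStatement : Prop :=
  ∀ (Γ : Type) [Finite Γ] (Θ : Set (Tile Γ)), ∃ (Γ' : Type) (_ : Finite Γ')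
    (D : Option Γ' → Option Γ' → Option Γ' → Option Γ' → Prop) (K : ℕ),
    ∀ m n, 1 ≤ m → 1 ≤ n →
      (HasPic D m n → ∃ p : Pic Γ m n, InLocal Θ p) ∧
      ∀ (p : Pic Γ m n) (z : Bool × Bool), InLocal Θ p → HasPicW D m n (bits z Θ p + K)

/-! ## 2. The table of a picture, computed with a string of guessed bits -/

/-- The kind of the place `(i, j)` (counted from `0`): inside, border, beyond. -/
def kind (m n i j : ℕ) : ℕ := if i < m ∧ j < n then 0 else if i ≤ m ∧ j ≤ n then 1 else 2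

/-- The value of a place with left neighbour `l`, diagonal neighbour `o`, neighbour `r` in the
previous row, kind `v`; the number `cost` of bits is read from `a` at the pointer `s`.  The second
component is the new pointer. -/
def cellStep {V : Type} (next : ℕ → V → V → V → ℕ → V) (cost : ℕ → V → V → V → ℕ)
    (a v : ℕ) (l o r : V) (s : ℕ) : V × ℕ :=
  (next v l o r (a / 2 ^ s % 2 ^ cost v l o r), s + cost v l o r)

/-- The table: `tab (i + 1) (j + 1)` belongs to the place `(i, j)`; the pointer is handed over inside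
the blocks of size `B × B` row by row, and starts with `ptr I J` in the block `(I, J)`. -/
def tab {V : Type} (next : ℕ → V → V → V → ℕ → V) (cost : ℕ → V → V → V → ℕ) (h : V)
    (a m n B : ℕ) (ptr : ℕ → ℕ → ℕ) : ℕ → ℕ → V × ℕ
  | 0 => fun _ => (h, 0)
  | i + 1 => fun j => Nat.rec (h, 0)
      (fun j x => cellStep next cost a (kind m n i j) x.1 (tab next cost h a m n B ptr i j).1
        (tab next cost h a m n B ptr i (j + 1)).1
        (if j % B = 0 then (if i % B = 0 then ptr (i / B) (j / B) else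
          (tab next cost h a m n B ptr i (j + B)).2) else x.2)) j

theorem tab_zero_left {V : Type} (next : ℕ → V → V → V → ℕ → V) (cost : ℕ → V → V → V → ℕ) (h : V)
    (a m n B : ℕ) (ptr : ℕ → ℕ → ℕ) (j : ℕ) : tab next cost h a m n B ptr 0 j = (h, 0) := rfl

theorem tab_zero_right {V : Type} (next : ℕ → V → V → V → ℕ → V) (cost : ℕ → V → V → V → ℕ) (h : V)
    (a m n B : ℕ) (ptr : ℕ → ℕ → ℕ) (i : ℕ) : tab next cost h a m n B ptr i 0 = (h, 0) := by
  cases i <;> rfl

theorem tab_succ {V : Type} (next : ℕ → V → V → V → ℕ → V) (cost : ℕ → V → V → V → ℕ) (h : V)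
    (a m n B : ℕ) (ptr : ℕ → ℕ → ℕ) (i j : ℕ) : tab next cost h a m n B ptr (i + 1) (j + 1) =
      cellStep next cost a (kind m n i j) (tab next cost h a m n B ptr (i + 1) j).1
        (tab next cost h a m n B ptr i j).1 (tab next cost h a m n B ptr i (j + 1)).1
        (if j % B = 0 then (if i % B = 0 then ptr (i / B) (j / B) else
          (tab next cost h a m n B ptr i (j + B)).2)
          else (tab next cost h a m n B ptr (i + 1) j).2) := rfl

section sem

variable {Γ : Type} [Finite Γ] (D : Option Γ → Option Γ → Option Γ → Option Γ → Prop)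

/-- Values: `none` = bad, `some none` = border symbol, `some (some x)` = symbol. -/
noncomputable def nextV (v : ℕ) (l o r : Option (Option Γ)) (d : ℕ) : Option (Option Γ) := by
  classical
  exact match l, o, r with
    | some a, some c, some b =>
      if v = 0 then (pick (2 ^ cst D a b c) (fun x => D (some x) a b c) d).map some
      else if v = 1 then (if D none a b c then some none else none)
      else some none
    | _, _, _ => none

/-- The number of bits read. -/
noncomputable def costV (v : ℕ) (l o r : Option (Option Γ)) : ℕ :=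
  match l, o, r with
  | some a, some c, some b => if v = 0 then cst D a b c else 0
  | _, _, _ => 0

/-- The table of `D`. -/
noncomputable abbrev tabV (a m n B : ℕ) (ptr : ℕ → ℕ → ℕ) : ℕ → ℕ → Option (Option Γ) × ℕ :=
  tab (nextV D) (costV D) (some none) a m n B ptr

end sem

/-- Row SND: if the table ends with the border symbol there is a picture. -/
def SndStatement : Prop :=
  ∀ (Γ : Type) [Finite Γ] (D : Option Γ → Option Γ → Option Γ → Option Γ → Prop)
    (a m n B : ℕ) (ptr : ℕ → ℕ → ℕ) (M M' : ℕ), 1 ≤ m → 1 ≤ n → m ≤ M → n ≤ M' →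
    (tabV D a m n B ptr (M + 1) (M' + 1)).1 = some none → HasPic D m n

/-- Row BEY: beyond the picture only `bad` and the border symbol appear. -/
def BeyStatement : Prop :=
  ∀ (Γ : Type) [Finite Γ] (D : Option Γ → Option Γ → Option Γ → Option Γ → Prop)
    (a m n B : ℕ) (ptr : ℕ → ℕ → ℕ) (M M' : ℕ), m ≤ M → n ≤ M' →
    (tabV D a m n B ptr (M + 1) (M' + 1)).1 = some none ∨
      (tabV D a m n B ptr (M + 1) (M' + 1)).1 = none

/-- Row STR: a string of guesses. The guess number `t` has `w t` bits. -/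
def StrStatement : Prop :=
  ∀ (w d : ℕ → ℕ), (∀ t, d t < 2 ^ w t) → ∀ K : ℕ, ∃ a, a < 2 ^ (∑ t ∈ range K, w t) ∧
    ∀ t < K, a / 2 ^ (∑ t' ∈ range t, w t') % 2 ^ w t = d t

/-- The place number `t` in the order: blocks `(I, J)` with `I, J < R` row by row, inside a block
row by row. -/
def plc (R B t : ℕ) : ℕ × ℕ :=
  (t / (B * B) / R * B + t % (B * B) / B, t / (B * B) % R * B + t % (B * B) % B)

/-- Row ORD: the sum over all places in this order. -/
def OrdStatement : Prop :=
  ∀ (R B : ℕ) (f : ℕ → ℕ → ℕ), 1 ≤ R → 1 ≤ B →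
    ∑ t ∈ range (R * R * (B * B)), f (plc R B t).1 (plc R B t).2 =
      ∑ i ∈ range (R * B), ∑ j ∈ range (R * B), f i j

/-- Row CMP (from STR, ORD): a picture with at most `W` guessed bits gives a string and pointers. -/
def CmpStatement : Prop :=
  ∀ (Γ : Type) [Finite Γ] (D : Option Γ → Option Γ → Option Γ → Option Γ → Prop)
    (m n W B : ℕ), 1 ≤ m → 1 ≤ n → 1 ≤ B → HasPicW D m n W →
    ∃ (a : ℕ) (ptr : ℕ → ℕ → ℕ), a < 2 ^ W ∧ (∀ I J, ptr I J ≤ W) ∧
      ∀ M M', m ≤ M → n ≤ M' → (tabV D a m n B ptr (M + 1) (M' + 1)).1 = some none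

/-! ## 3. Coding by numbers -/

/-- The rule coded by `T`, with five arguments. -/
def rule5 (q T l o r d v : ℕ) : ℕ := dig q T ((((l * q + o) * q + r) * q + d) * q + v)

/-- The next value, for numbers. -/
def nextN (q T v l o r d : ℕ) : ℕ := rule5 q T l o r d v

/-- The number of bits read, for numbers. -/
def costN (q T v l o r : ℕ) : ℕ := rule5 q T l o r 0 (v + 3)

/-- The table of `T`. -/
abbrev tabN (q T a m n B : ℕ) (ptr : ℕ → ℕ → ℕ) : ℕ → ℕ → ℕ × ℕ :=
  tab (nextN q T) (costN q T) 0 a m n B ptr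

/-- Row COD: every `D` can be coded. -/
def CodStatement : Prop :=
  ∀ (Γ : Type) [Finite Γ] (D : Option Γ → Option Γ → Option Γ → Option Γ → Prop),
    ∃ (β T : ℕ) (enc : Option (Option Γ) → ℕ), 3 ≤ β ∧ enc (some none) = 0 ∧ enc none = 1 ∧
      (∀ v l o r, costN (2 ^ β) T v l o r < 2 ^ β) ∧
      ∀ (a m n B : ℕ) (ptr : ℕ → ℕ → ℕ) (i j : ℕ),
        tabN (2 ^ β) T a m n B ptr i j =
          (enc (tabV D a m n B ptr i j).1, (tabV D a m n B ptr i j).2)

/-! ## 4. The blocks -/

/-- One step of the scan of the block `(I, J)`; the state is `W + s * q ^ (2 B + 1)`, where `W` has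
the digits `0, …, 2 B` (`B + c - r` for the last place of the diagonal) and `s` is the pointer. -/
def scanStep (C q T B a m n I J t X : ℕ) : ℕ :=
  (∑ k ∈ range (2 * B + 1), (if k = B + t % B - t / B then
      nextN q T (kind m n (I * B + t / B) (J * B + t % B)) (dig q X (B + t % B - t / B - 1))
        (dig q X (B + t % B - t / B)) (dig q X (B + t % B - t / B + 1))
        (a / powc 2 (X / powc q (2 * B + 1) C) C %
          powc 2 (costN q T (kind m n (I * B + t / B) (J * B + t % B))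
            (dig q X (B + t % B - t / B - 1)) (dig q X (B + t % B - t / B))
            (dig q X (B + t % B - t / B + 1))) C)
    else dig q X k) * powc q k C) +
  (X / powc q (2 * B + 1) C + costN q T (kind m n (I * B + t / B) (J * B + t % B))
      (dig q X (B + t % B - t / B - 1)) (dig q X (B + t % B - t / B))
      (dig q X (B + t % B - t / B + 1))) * powc q (2 * B + 1) C

/-- Row SCN: the scan of a block. -/
def ScnStatement : Prop :=
  ∀ (C q T B a m n I J : ℕ) (ptr : ℕ → ℕ → ℕ), 1 ≤ q → 1 ≤ B → q ^ (2 * B + 1) ≤ C →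
    2 ^ q ≤ C → a < C →
    runTo (scanStep C q T B a m n I J) (B * B)
      ((∑ z ∈ range (2 * B + 1),
        (tabN q T a m n B ptr (I * B + (B - z)) (J * B + (z - B))).1 * q ^ z) +
        ptr I J * q ^ (2 * B + 1)) % q ^ (2 * B + 1) =
      ∑ z ∈ range (2 * B + 1),
        (tabN q T a m n B ptr (I * B + (B - (z - B))) (J * B + min z B)).1 * q ^ z

/-- The pointer of the block `(I, J)` in the table `pt`. -/
def ptrT (g R' pt I J : ℕ) : ℕ := dig (2 ^ g) pt ((I + J + 1) * (2 * R' + 1) + (J + R' - I))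

/-- The new index of the block `x` (three blocks). -/
def idxU (C β B R' x : ℕ) : ℕ :=
  x / powc 2 (B * (3 * β + 1)) C % powc 2 (B * (3 * β + 1)) C / powc 2 (3 * B * β) C +
    (2 * R' + 1)

/-- The start of the scan, from the left and the right child and the pointer `s`. -/
def startU (C β B x s : ℕ) : ℕ :=
  x % powc 2 (3 * B * β) C / powc (powc 2 β C) B C % powc (powc 2 β C) (B + 1) C +
  x / powc 2 (2 * (B * (3 * β + 1))) C % powc 2 (3 * B * β) C / powc 2 β C %
    powc (powc 2 β C) B C * powc (powc 2 β C) (B + 1) C +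
  s * powc (powc 2 β C) (2 * B + 1) C

/-- The block map. -/
def GU (C β T B R' g a m n pt x : ℕ) : ℕ :=
  (if R' + 1 ≤ idxU C β B R' x / (2 * R' + 1) + idxU C β B R' x % (2 * R' + 1) ∧
      idxU C β B R' x % (2 * R' + 1) + 1 ≤ idxU C β B R' x / (2 * R' + 1) + R' then
    runTo (scanStep C (powc 2 β C) T B a m n
      ((idxU C β B R' x / (2 * R' + 1) + R' - (idxU C β B R' x % (2 * R' + 1) + 1)) / 2)
      ((idxU C β B R' x / (2 * R' + 1) + idxU C β B R' x % (2 * R' + 1) - (R' + 1)) / 2))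
      (B * B) (startU C β B x (dig (powc 2 g C) pt (idxU C β B R' x))) %
        powc (powc 2 β C) (2 * B + 1) C
  else 0) + idxU C β B R' x % powc 2 B C * powc 2 (3 * B * β) C

/-- The leaves. -/
def LU (C β B i : ℕ) : ℕ := i % powc 2 B C * powc 2 (3 * B * β) C

/-- Row TRE (from SCN): the root of the tree. -/
def TreStatement : Prop :=
  ∀ (C β T B R g a m n pt : ℕ), 3 ≤ β → 2 ≤ B → 2 ^ (3 * (B * (3 * β + 1))) ≤ C →
    2 ^ (2 ^ β) ≤ C → 2 ^ g ≤ C → a < C →
    (2 * R + 2) * (2 * (2 * R + 1) + 1) ≤ 2 ^ B →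
    (∀ u, GU C β T B (2 * R + 1) g a m n pt u < 2 ^ (B * (3 * β + 1))) ∧
    (∀ i, LU C β B i < 2 ^ (B * (3 * β + 1))) ∧
    dig 2 (tval (B * (3 * β + 1)) (GU C β T B (2 * R + 1) g a m n pt) (LU C β B) (2 * R + 1)
      (2 * R + 1)) (B * β) =
      (tabN (2 ^ β) T a m n B (ptrT g (2 * R + 1) pt) (R * B + B) (R * B + B)).1 % 2

/-- Row PTB: the table of pointers. -/
def PtbStatement : Prop :=
  ∀ (V : Type) (next : ℕ → V → V → V → ℕ → V) (cost : ℕ → V → V → V → ℕ) (h : V)
    (a m n B R g : ℕ) (ptr : ℕ → ℕ → ℕ), 1 ≤ B → (∀ I J, ptr I J < 2 ^ g) →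
    ∃ pt, pt < 2 ^ (g * ((2 * R + 2) * (2 * (2 * R + 1) + 1))) ∧
      ∀ i j, i ≤ R * B + B → j ≤ R * B + B →
        tab next cost h a m n B (ptrT g (2 * R + 1) pt) i j = tab next cost h a m n B ptr i j

/-! ## 5. The diagonal function -/

/-- The width of the blocks. -/
def widU (n β : ℕ) : ℕ := n / (16 * β * (Nat.log 2 n + 1))

/-- The number of blocks in a row. -/
def numU (n β : ℕ) : ℕ := n / widU n β

/-- The number of bits of a pointer. -/
def gU (k n : ℕ) : ℕ := Nat.log 2 n + 1 + k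

/-- Row SIZ: sizes. -/
def SizStatement : Prop :=
  ∀ k β : ℕ, 1 ≤ β → ∃ N, ∀ n, N ≤ n → 1 ≤ n ∧ β ≤ n ∧ 2 ^ β ≤ n ∧ 2 ≤ widU n β ∧
    3 * (widU n β * (3 * β + 1)) ≤ n ∧ gU k n ≤ n ∧
    k * n < 2 ^ gU k n ∧
    (2 * numU n β + 2) * (2 * (2 * numU n β + 1) + 1) ≤ 2 ^ widU n β ∧
    gU k n * ((2 * numU n β + 2) * (2 * (2 * numU n β + 1) + 1)) ≤ n ∧
    ∀ p, 1 ≤ p → p ≤ 2 * (3 * (widU n β * (3 * β + 1)) + 2) →
      p ^ (4 * (widU n β * (3 * β + 1))) ≤ 2 ^ n ∧ (9 * (p - 1)) ^ (2 * numU n β + 1) ≤ 2 ^ n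

/-- The prime. -/
def prmU (n β : ℕ) : ℕ := primeFor (3 * (widU n β * (3 * β + 1)) + 2)

/-- The outcome for the code `e = (β - 1, T)`, the size `(c + 1, n - c)`, the string `a` and the
table of pointers `pt`. -/
def outU (k C n e c a pt : ℕ) : ℕ :=
  dig (prmU n (e.unpair.1 + 1))
    (mainG C (prmU n (e.unpair.1 + 1)) (widU n (e.unpair.1 + 1) * (3 * (e.unpair.1 + 1) + 1))
      (2 * numU n (e.unpair.1 + 1) + 1)
      (GU C (e.unpair.1 + 1) e.unpair.2 (widU n (e.unpair.1 + 1))
        (2 * numU n (e.unpair.1 + 1) + 1) (gU k n) a (c + 1) (n - c) pt)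
      (LU C (e.unpair.1 + 1) (widU n (e.unpair.1 + 1))))
    (widU n (e.unpair.1 + 1) * (e.unpair.1 + 1))

/-- The diagonal function. -/
def diagU (k x : ℕ) : ℕ :=
  if (∑ c ∈ range (Nat.log 2 x), ∑ a ∈ range (x ^ k), ∑ pt ∈ range x,
    if outU k (x ^ (k + 1)) (Nat.log 2 x) (Nat.log 2 x).unpair.1 c a pt = 0 then 1 else 0) = 0
  then 1 else 0

/-- Row LSU: the diagonal function is of linear space. -/
def LsuStatement : Prop := ∀ k : ℕ, LS (diagU k)

/-- Row DGU (from TRE, PTB, COD, SND, BEY, CMP, SIZ, EVALG, PRIME): the diagonal argument. -/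
def DguStatement : Prop :=
  ∀ (k : ℕ) (Γ : Type) [Finite Γ] (D : Option Γ → Option Γ → Option Γ → Option Γ → Prop) (N : ℕ),
    ∃ n, N ≤ n ∧
      (diagU k (2 ^ n) = 0 → ∃ m n', 1 ≤ m ∧ 1 ≤ n' ∧ m + n' - 1 = n ∧ HasPic D m n') ∧
      (diagU k (2 ^ n) ≠ 0 → ∀ m n', 1 ≤ m → 1 ≤ n' → m + n' - 1 = n →
        ¬ HasPicW D m n' (k * n))

end Pool.Agent.Lib.MP_4c536a_lc.BGU
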