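import Pool.Agent.Lib.MP_4c536a_lc.BGU.Defs
import Pool.Agent.Lib.MP_2eed13_lc.LCA.H58.Prime

/-!
# MP_4c536a_lc, board BGU, row DGU: the diagonal argument (helper95)
-/

set_option autoImplicit false

namespace Pool.Agent.Lib.MP_4c536a_lc.BGU

open Finset
open Pool.Agent.Lib.MP_2eed13_lc.LCA
open Pool.Agent.Lib.MP_4c536a_lc.BGD (HasPic)
open Pool.Agent.Lib.MP_4c536a_lc.BG (mainG EvalGStatement)

/-- One evaluation. -/
theorem dgu_out (hT : TreStatement) (hE : EvalGStatement) {k β T n N0 : ℕ} (hβ : 3 ≤ β)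
    (hS : ∀ n, N0 ≤ n → 1 ≤ n ∧ β ≤ n ∧ 2 ^ β ≤ n ∧ 2 ≤ widU n β ∧
      3 * (widU n β * (3 * β + 1)) ≤ n ∧ gU k n ≤ n ∧
      k * n < 2 ^ gU k n ∧
      (2 * numU n β + 2) * (2 * (2 * numU n β + 1) + 1) ≤ 2 ^ widU n β ∧
      gU k n * ((2 * numU n β + 2) * (2 * (2 * numU n β + 1) + 1)) ≤ n ∧
      ∀ p, 1 ≤ p → p ≤ 2 * (3 * (widU n β * (3 * β + 1)) + 2) →
        p ^ (4 * (widU n β * (3 * β + 1))) ≤ 2 ^ n ∧ (9 * (p - 1)) ^ (2 * numU n β + 1) ≤ 2 ^ n)
    (hn : N0 ≤ n) (c a pt : ℕ) (ha : a < (2 ^ n) ^ (k + 1)) :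
    outU k ((2 ^ n) ^ (k + 1)) n (Nat.pair (β - 1) T) c a pt =
      (tabN (2 ^ β) T a (c + 1) (n - c) (widU n β) (ptrT (gU k n) (2 * numU n β + 1) pt)
        (numU n β * widU n β + widU n β) (numU n β * widU n β + widU n β)).1 % 2 := by
  obtain ⟨hn1, hβn, hB2, hw2, hb3, hgn, hkg, hidx, hgR, hpp⟩ := hS n hn
  have hβ1 : β - 1 + 1 = β := by omega
  have hC1 : 2 ^ n ≤ (2 ^ n) ^ (k + 1) := Nat.le_self_pow (by omega) _
  have hp2n : ∀ x, x ≤ n → 2 ^ x ≤ (2 ^ n) ^ (k + 1) := fun x hx =>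
    (Nat.pow_le_pow_right (by norm_num) hx).trans hC1
  obtain ⟨hG, hL, hbit⟩ := hT ((2 ^ n) ^ (k + 1)) β T (widU n β) (numU n β) (gU k n) a (c + 1)
    (n - c) pt hβ hw2 (hp2n _ hb3) (hp2n _ hB2) (hp2n _ hgn) ha hidx
  obtain ⟨hp1, hp2, hp3⟩ := H58.prime (3 * (widU n β * (3 * β + 1)) + 2) (by omega)
  have hp0 : 1 ≤ primeFor (3 * (widU n β * (3 * β + 1)) + 2) := hp1.one_lt.le
  obtain ⟨hq1, hq2⟩ := hpp _ hp0 hp3
  rw [← hbit]
  unfold outU
  rw [Nat.unpair_pair, hβ1]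
  show dig (prmU n β) _ _ = _
  refine hE ((2 ^ n) ^ (k + 1)) (prmU n β) (widU n β * (3 * β + 1)) (2 * numU n β + 1)
    (widU n β * β) _ _ hp1 ?_ ?_ (hp2n _ hb3) (hq1.trans hC1) (hq2.trans hC1) hG hL
  · show _ < primeFor (3 * (widU n β * (3 * β + 1)) + 2)
    omega
  · exact Nat.mul_lt_mul_of_pos_left (by omega) (by omega)

/-- Row DGU. -/
theorem dgu_proof (hT : TreStatement) (hP : PtbStatement) (hC : CodStatement)
    (hS : SndStatement) (hB : BeyStatement) (hM : CmpStatement) (hZ : SizStatement)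
    (hE : EvalGStatement) : DguStatement := by
  intro k Γ _ D N
  obtain ⟨β, T, enc, hβ, henc0, henc1, hcost, htab⟩ := hC Γ D
  obtain ⟨N0, hN0⟩ := hZ k β (by omega)
  set n : ℕ := Nat.pair (Nat.pair (β - 1) T) (max N N0) with hn
  have hkn : max N N0 ≤ n := Nat.right_le_pair _ _
  have hNn : N ≤ n := le_trans (le_max_left _ _) hkn
  have hN0n : N0 ≤ n := le_trans (le_max_right _ _) hkn
  have hne : n.unpair.1 = Nat.pair (β - 1) T := by rw [hn, Nat.unpair_pair]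
  clear_value n
  have hone := dgu_out (T := T) hT hE hβ hN0 hN0n
  obtain ⟨hn1, hβn, hB2, hw2, hb3, hgn, hkg, hidx, hgR, hpp⟩ := hN0 n hN0n
  set w := widU n β with hw
  set R := numU n β with hR
  have hRw : n ≤ R * w + w - 1 := by
    have h1 : n < w * (n / w + 1) := Nat.lt_mul_div_succ n (by omega)
    have h2 : w * (n / w + 1) = R * w + w := by rw [hR, numU, ← hw]; ring
    omega
  obtain ⟨M, hMM⟩ : ∃ M, R * w + w = M + 1 := ⟨R * w + w - 1, by omega⟩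
  have hnM : n ≤ M := by omega
  have hlog : Nat.log 2 (2 ^ n) = n := Nat.log_pow (by norm_num) n
  have hpk : (2 ^ n) ^ k ≤ (2 ^ n) ^ (k + 1) :=
    Nat.pow_le_pow_right (Nat.one_le_two_pow) (Nat.le_succ k)
  refine ⟨n, hNn, ?_, ?_⟩
  · intro hd
    unfold diagU at hd
    rw [hlog, hne] at hd
    split_ifs at hd with hs
    obtain ⟨c, hc, hc'⟩ := Finset.exists_ne_zero_of_sum_ne_zero hs
    obtain ⟨a, ha, ha'⟩ := Finset.exists_ne_zero_of_sum_ne_zero hc'
    obtain ⟨pt, _, hpt⟩ := Finset.exists_ne_zero_of_sum_ne_zero ha'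
    have hcn : c < n := Finset.mem_range.1 hc
    have han : a < (2 ^ n) ^ k := Finset.mem_range.1 ha
    have h5 : outU k ((2 ^ n) ^ (k + 1)) n (Nat.pair (β - 1) T) c a pt = 0 := by
      by_contra h6
      exact hpt (if_neg h6)
    rw [hone c a pt (lt_of_lt_of_le han hpk), htab, hMM] at h5
    have h6 := hB Γ D a (c + 1) (n - c) w (ptrT (gU k n) (2 * R + 1) pt) M M (by omega) (by omega)
    rcases h6 with h6 | h6
    · exact ⟨c + 1, n - c, by omega, by omega, by omega,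
        hS Γ D a (c + 1) (n - c) w _ M M (by omega) (by omega) (by omega) (by omega) h6⟩
    · exfalso
      rw [h6] at h5
      dsimp only at h5
      rw [henc1] at h5
      omega
  · intro hd m n' hm hn' hmn hpic
    have hs : (∑ c ∈ range n, ∑ a ∈ range ((2 ^ n) ^ k), ∑ pt ∈ range (2 ^ n),
        if outU k ((2 ^ n) ^ (k + 1)) n (Nat.pair (β - 1) T) c a pt = 0 then 1 else 0) = 0 := by
      by_contra h6
      apply hd
      unfold diagU
      rw [hlog, hne, if_neg h6]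
    obtain ⟨a, ptr, ha, hptr, hend⟩ := hM Γ D m n' (k * n) w hm hn' (by omega) hpic
    obtain ⟨pt, hpt, htr⟩ := hP ℕ (nextN (2 ^ β) T) (costN (2 ^ β) T) 0 a m n' w R (gU k n) ptr
      (by omega) (fun I J => lt_of_le_of_lt (hptr I J) hkg)
    have hpt2 : pt < 2 ^ n := lt_of_lt_of_le hpt (Nat.pow_le_pow_right (by norm_num) hgR)
    have hak : a < (2 ^ n) ^ k := by
      rw [← pow_mul, mul_comm]
      exact ha
    have e1 : m - 1 + 1 = m := by omega
    have e2 : n - (m - 1) = n' := by omega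
    have h5 : outU k ((2 ^ n) ^ (k + 1)) n (Nat.pair (β - 1) T) (m - 1) a pt = 0 := by
      rw [hone (m - 1) a pt (lt_of_lt_of_le hak hpk), e1, e2]
      show (tab (nextN (2 ^ β) T) (costN (2 ^ β) T) 0 a m n' w (ptrT (gU k n) (2 * R + 1) pt)
        (R * w + w) (R * w + w)).1 % 2 = 0
      rw [htr _ _ le_rfl le_rfl]
      show (tabN (2 ^ β) T a m n' w ptr (R * w + w) (R * w + w)).1 % 2 = 0
      rw [htab, hMM, hend M M (by omega) (by omega)]
      show enc (some none) % 2 = 0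
      rw [henc0]
    have h6 := (Finset.sum_eq_zero_iff.1 hs) (m - 1) (Finset.mem_range.2 (by omega))
    have h7 := (Finset.sum_eq_zero_iff.1 h6) a (Finset.mem_range.2 hak)
    have h8 := (Finset.sum_eq_zero_iff.1 h7) pt (Finset.mem_range.2 hpt2)
    rw [if_pos h5] at h8
    exact one_ne_zero h8

end Pool.Agent.Lib.MP_4c536a_lc.BGU
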