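import Pool.Agent.Lib.MP_4c536a_lc.BGU.Fin
import Pool.Agent.Lib.MP_4c536a_lc.BGD.Lba

/-!
# Row DLB: arrays are simulated by deterministic linear bounded automata
-/

set_option autoImplicit false

namespace Pool.Agent.Lib.MP_4c536a_lc.BGU

open Pool.Agent.Lib.MP_2eed13_lc.LCA
open Pool.Agent.Lib.MP_4c536a_lc.BGD

section dlb

variable {Q : Type}

/-- The deterministic automaton: at the left end it accepts if the leftmost cell was in an
accepting state, and continues only if it was not. -/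
def dlbOf (δ : Option Q → Q → Option Q → Q) (s : Q) (F : Set Q) (hQ : Finite Q) : LBA Unit where
  Q := (Option Q × Bool) ⊕ Unit
  T := Q ⊕ (Q × Option Q)
  finQ := inferInstance
  finT := inferInstance
  inp := fun _ => Sum.inl s
  start := Sum.inl (none, false)
  acc := {Sum.inr ()}
  onCell := fun q a q' a' d =>
    (∃ c x, q = Sum.inl (c, false) ∧ a = Sum.inl x ∧ q' = Sum.inl (some x, false) ∧
      a' = Sum.inr (x, c) ∧ d = Dir.R) ∨
    (∃ c x l, q = Sum.inl (c, true) ∧ a = Sum.inr (x, l) ∧ q' = Sum.inl (some x, true) ∧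
      a' = Sum.inl (δ l x c) ∧ d = Dir.L)
  onEnd := fun q e q' =>
    (∃ c, q = Sum.inl (c, false) ∧ e = true ∧ q' = Sum.inl (none, true)) ∨
    (∃ c, q = Sum.inl (c, true) ∧ e = false ∧
      (((∀ x ∈ F, c ≠ some x) ∧ q' = Sum.inl (none, false)) ∨
      ∃ x ∈ F, c = some x ∧ q' = Sum.inr ()))

variable (δ : Option Q → Q → Option Q → Q) (s : Q) (n : ℕ) {F : Set Q} (hQ : Finite Q)

theorem dlb_det : (dlbOf δ s F hQ).Det := by
  refine ⟨?_, ?_⟩
  · intro q a q1 a1 d1 q2 a2 d2 h1 h2
    rcases h1 with ⟨c, x, k1, k2, k3, k4, k5⟩ | ⟨c, x, l, k1, k2, k3, k4, k5⟩ <;>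
    rcases h2 with ⟨c', x', j1, j2, j3, j4, j5⟩ | ⟨c', x', l', j1, j2, j3, j4, j5⟩
    · rw [k1] at j1
      rw [k2] at j2
      simp only [Sum.inl.injEq, Prod.mk.injEq, and_true] at j1 j2
      subst j1 j2
      exact ⟨by rw [k3, j3], by rw [k4, j4], by rw [k5, j5]⟩
    · rw [k1] at j1
      simp at j1
    · rw [k1] at j1
      simp at j1
    · rw [k1] at j1
      rw [k2] at j2
      simp only [Sum.inl.injEq, Sum.inr.injEq, Prod.mk.injEq, and_true] at j1 j2
      obtain ⟨j2, j2'⟩ := j2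
      subst j1 j2 j2'
      exact ⟨by rw [k3, j3], by rw [k4, j4], by rw [k5, j5]⟩
  · intro q e q1 q2 h1 h2
    rcases h1 with ⟨c, k1, k2, k3⟩ | ⟨c, k1, k2, k3⟩ <;>
    rcases h2 with ⟨c', j1, j2, j3⟩ | ⟨c', j1, j2, j3⟩
    · rw [k3, j3]
    · rw [k2] at j2
      exact absurd j2 (by simp)
    · rw [k2] at j2
      exact absurd j2 (by simp)
    · rw [k1] at j1
      simp only [Sum.inl.injEq, Prod.mk.injEq, and_true] at j1
      subst j1
      rcases k3 with ⟨k3, k4⟩ | ⟨x, hx, k3, k4⟩ <;> rcases j3 with ⟨j3, j4⟩ | ⟨y, hy, j3, j4⟩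
      · rw [k4, j4]
      · exact absurd j3 (k3 y hy)
      · exact absurd k3 (j3 x hx)
      · rw [k4, j4]

/-- A step of the deterministic automaton is a step of the automaton of row LBA. -/
theorem dlb_step {x y : (dlbOf δ s F hQ).Cfg} (h : (dlbOf δ s F hQ).Step n x y) :
    (lbaOf δ s F hQ).Step n x y := by
  cases h with
  | cell q q' p tp a' d h1 h2 hc =>
    exact LBA.Step.cell (M := lbaOf δ s F hQ) q q' p tp a' d h1 h2 hc
  | left q q' tp he =>
    refine LBA.Step.left (M := lbaOf δ s F hQ) q q' tp ?_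
    rcases he with ⟨c, k1, k2, k3⟩ | ⟨c, k1, k2, k3⟩
    · exact Or.inl ⟨c, k1, k2, k3⟩
    · rcases k3 with ⟨-, k4⟩ | ⟨x, hx, k3, k4⟩
      · exact Or.inr ⟨c, k1, k2, Or.inl k4⟩
      · exact Or.inr ⟨c, k1, k2, Or.inr ⟨x, hx, k3, k4⟩⟩
  | right q q' tp he =>
    refine LBA.Step.right (M := lbaOf δ s F hQ) q q' tp ?_
    rcases he with ⟨c, k1, k2, k3⟩ | ⟨c, k1, k2, k3⟩
    · exact Or.inl ⟨c, k1, k2, k3⟩
    · exact absurd k2 (by simp)

theorem dlb_fwd (t p : ℕ) (hp : p ≤ n) : Relation.ReflTransGen ((dlbOf δ s F hQ).Step n)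
    (Sum.inl (none, false), 1, TF δ s n t 1)
    (Sum.inl (cf δ s n t p, false), p + 1, TF δ s n t (p + 1)) := by
  induction p with
  | zero =>
    rw [cf_out δ s n t (by omega)]
  | succ p ih =>
    refine (ih (by omega)).tail ?_
    refine cellR (M := dlbOf δ s F hQ) (by omega) hp ?_ (TF_step δ s n t (by omega))
    refine Or.inl ⟨cf δ s n t p, st δ s n t (p + 1), rfl, ?_, ?_, rfl, rfl⟩
    · unfold TF
      rw [if_neg (by omega)]
    · rw [cf_in δ s n t (by omega) hp]

theorem dlb_bwd (t j : ℕ) (hj : j ≤ n) : Relation.ReflTransGen ((dlbOf δ s F hQ).Step n)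
    (Sum.inl (none, true), n, TB δ s n t n)
    (Sum.inl (cf δ s n t (n - j + 1), true), n - j, TB δ s n t (n - j)) := by
  induction j with
  | zero =>
    rw [Nat.sub_zero, cf_out δ s n t (by omega)]
  | succ j ih =>
    refine (ih (by omega)).tail ?_
    have e : n - (j + 1) + 1 = n - j := by omega
    have e' : n - (j + 1) = n - j - 1 := by omega
    rw [e, e']
    refine cellL (M := dlbOf δ s F hQ) (by omega) (by omega) ?_ (TB_step δ s n t (by omega))
    refine Or.inr ⟨cf δ s n t (n - j + 1), st δ s n t (n - j), cf δ s n t (n - j - 1), rfl, ?_, ?_,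
      ?_, rfl⟩
    · unfold TB
      rw [if_pos ⟨by omega, le_rfl⟩]
    · rw [cf_in δ s n t (by omega) (by omega)]
    · rw [st_succ δ s n t (by omega) (by omega)]

theorem dlb_end (t : ℕ) : Relation.ReflTransGen ((dlbOf δ s F hQ).Step n)
    (Sum.inl (none, false), 1, TF δ s n t 1)
    (Sum.inl (cf δ s n t 1, true), 0, TB δ s n t 0) := by
  have h1 := dlb_fwd δ s n (F := F) hQ t n le_rfl
  have h2 := dlb_bwd δ s n (F := F) hQ t n le_rfl
  rw [Nat.sub_self] at h2
  refine (h1.tail ?_).trans h2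
  rw [← TF_last]
  exact LBA.Step.right _ _ _ (Or.inl ⟨_, rfl, rfl, rfl⟩)

theorem dlb_time (t : ℕ) (ht : ∀ t' < t, ¬ aAcc δ s F n t') :
    Relation.ReflTransGen ((dlbOf δ s F hQ).Step n)
    (Sum.inl (none, false), 1, TF δ s n 0 1) (Sum.inl (none, false), 1, TF δ s n t 1) := by
  induction t with
  | zero => exact Relation.ReflTransGen.refl
  | succ t ih =>
    refine ((ih fun t' h => ht t' (by omega)).trans (dlb_end δ s n hQ t)).tail ?_
    rw [← TB_zero]
    refine LBA.Step.left _ _ _ (Or.inr ⟨_, rfl, rfl, Or.inl ⟨?_, rfl⟩⟩)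
    intro x hx h
    exact ht t (by omega) ⟨x, hx, h⟩

end dlb

/-- Row DLB. -/
theorem dlb_proof : DlbStatement := by
  rintro D ⟨Q, hQ, s, δ, F, hD⟩
  refine ⟨dlbOf δ s F hQ, dlb_det δ s hQ, fun w hw => ?_⟩
  have hn : 1 ≤ w.length := List.length_pos_iff.2 hw
  rw [hD _ hn]
  constructor
  · intro hex
    classical
    have ht := Nat.find_spec hex
    set t := Nat.find hex with htd
    have hmin : ∀ t' < t, ¬ aAcc δ s F w.length t' := fun t' h' => Nat.find_min hex h'
    obtain ⟨q, hq, htq⟩ := ht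
    refine ⟨Sum.inr (), 1, TB δ s w.length t 0, TF δ s w.length 0 1, rfl, ?_, ?_⟩
    · intro i hi
      change TF δ s w.length 0 1 (i + 1) = Sum.inl s
      unfold TF
      rw [if_neg (by omega)]
      rw [st_zero]
    · refine ((dlb_time δ s w.length hQ t hmin).trans
        (dlb_end δ s w.length hQ t)).tail ?_
      exact LBA.Step.left _ _ _ (Or.inr ⟨_, rfl, rfl, Or.inr ⟨q, hq, htq, rfl⟩⟩)
  · rintro ⟨q, p, tp, tp₀, hq, h0, hr⟩
    have hinv : Inv δ s w.length F (q, p, tp) := by
      refine Relation.ReflTransGen.head_induction_on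
        (motive := fun x _ => Inv δ s w.length F x → Inv δ s w.length F (q, p, tp)) hr
        (fun h => h) ?_ ?_
      · intro x y hxy _ ih hx
        exact ih (inv_step δ s w.length hQ hx (dlb_step δ s w.length hQ hxy))
      · refine Or.inl ⟨0, ?_, le_rfl, ?_, ?_⟩
        · change _ = Sum.inl (cf δ s w.length 0 0, false)
          rw [cf_out δ s w.length 0 (by omega)]
          rfl
        · change 1 ≤ w.length + 1
          omega
        · intro i hi1 hi2
          change tp₀ i = TF δ s w.length 0 1 i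
          have h := h0 (i - 1) (by omega)
          rw [Nat.sub_add_cancel hi1] at h
          rw [h]
          unfold TF
          rw [if_neg (by omega)]
          rw [st_zero]
          rfl
    rcases hinv with ⟨t, e1, -⟩ | ⟨t, e1, -⟩ | ⟨-, h⟩
    · change q = _ at e1
      rw [e1] at hq
      exact absurd (show (Sum.inl _ : (Option Q × Bool) ⊕ Unit) = Sum.inr () from hq) (by simp)
    · change q = _ at e1
      rw [e1] at hq
      exact absurd (show (Sum.inl _ : (Option Q × Bool) ⊕ Unit) = Sum.inr () from hq) (by simp)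
    · exact h

end Pool.Agent.Lib.MP_4c536a_lc.BGU
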