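import Pool.Agent.Lib.MP_4c536a_lc.BGU.Defs

/-! Row FIN (helper70): the assembly of theorem U. -/

set_option autoImplicit false

namespace Pool.Agent.Lib.MP_4c536a_lc.BGU

open Finset
open Pool.Agent.Lib.MP_2eed13_lc.LCA
open Pool.Agent.Lib.MP_4c536a_lc.BGD (Pic bord Tile InLocal frontier bgrid tileAt orient HasPic IsCS
  LbaStatement UnaStatement)

theorem fin_mono {Γ : Type} {D : Option Γ → Option Γ → Option Γ → Option Γ → Prop} {m n W W' : ℕ}
    (hW : W ≤ W') (h : HasPicW D m n W) : HasPicW D m n W' := by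
  obtain ⟨P, h1, h2, h3⟩ := h
  exact ⟨P, h1, h2, h3.trans hW⟩

/-- The diagonal language. -/
def witU (k : ℕ) : Set (List Unit) := {w | w ≠ [] ∧ diagU (k + 1) (2 ^ w.length) ≠ 0}

/-- The diagonal language is not a frontier language with few guessed bits. -/
theorem fin_not (huna : UnaStatement) (hcor : CorStatement) (hdgu : DguStatement) (k : ℕ)
    (Γ : Type) [Finite Γ] (Θ : Set (Tile Γ)) (π : Γ → Unit) (N : ℕ)
    (hB : ∀ w ∈ witU k, N ≤ w.length → ∃ (m n : ℕ) (hm : 0 < m) (hn : 0 < n) (p : Pic Γ m n)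
        (z : Bool × Bool), InLocal Θ p ∧ w = (frontier hm hn p).map π ∧
          bits z Θ p ≤ k * w.length) : bgrid Θ π ≠ witU k := by
  intro hL
  obtain ⟨Γ', hΓ', D, K, hD⟩ := hcor Γ Θ
  obtain ⟨n, hn, h1, h2⟩ := hdgu (k + 1) Γ' D (max N (max K 1))
  have hnN : N ≤ n := le_trans (le_max_left _ _) hn
  have hnK : K ≤ n := le_trans (le_trans (le_max_left _ _) (le_max_right _ _)) hn
  have hn1 : 1 ≤ n := le_trans (le_trans (le_max_right _ _) (le_max_right _ _)) hn
  have hlen : (List.replicate n ()).length = n := List.length_replicate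
  have hne : List.replicate n () ≠ [] := by
    intro h
    rw [h] at hlen
    simp only [List.length_nil] at hlen
    omega
  by_cases hd : diagU (k + 1) (2 ^ n) = 0
  · obtain ⟨m, n', hm, hn', he, hp⟩ := h1 hd
    obtain ⟨p, hp⟩ := (hD m n' hm hn').1 hp
    have h3 : List.replicate n () ∈ bgrid Θ π :=
      (huna Γ Θ π _).2 ⟨m, n', hm, hn', by rw [hlen]; exact he, p, hp⟩
    rw [hL] at h3
    have h4 : diagU (k + 1) (2 ^ (List.replicate n ()).length) ≠ 0 := h3.2
    rw [hlen] at h4
    exact h4 hd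
  · have h3 : List.replicate n () ∈ witU k := by
      refine ⟨hne, ?_⟩
      rw [hlen]
      exact hd
    obtain ⟨m, n', hm, hn', p, z, hp, hw, hb⟩ := hB _ h3 (by rw [hlen]; exact hnN)
    have hmn : m + n' - 1 = n := by
      have h5 := congrArg List.length hw
      rw [hlen, List.length_map] at h5
      unfold BGD.frontier at h5
      rw [List.length_append, List.length_ofFn, List.length_ofFn] at h5
      omega
    refine h2 hd m n' hm hn' hmn (fin_mono ?_ ((hD m n' hm hn').2 p z hp))
    rw [hlen] at hb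
    calc bits z Θ p + K ≤ k * n + n := Nat.add_le_add hb hnK
      _ = (k + 1) * n := by ring

/-- The diagonal language is accepted by an array. -/
theorem fin_acc (hls : LsuStatement) (hmach : MachineStatement) (k : ℕ) :
    Acceptable fun n => diagU (k + 1) (2 ^ n) ≠ 0 := hmach (diagU (k + 1)) (hls (k + 1))

/-- The diagonal language is context-sensitive. -/
theorem fin_cs (hlba : LbaStatement) (hls : LsuStatement) (hmach : MachineStatement) (k : ℕ) :
    IsCS (witU k) := by
  obtain ⟨M, hM⟩ := hlba _ (fin_acc hls hmach k)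
  refine ⟨M, fun w hw => ?_⟩
  rw [← hM w hw]
  exact ⟨fun h => h.2, fun h => ⟨hw, h⟩⟩

/-- Row FIN. -/
theorem fin_proof (hlba : LbaStatement) (huna : UnaStatement) (hcor : CorStatement)
    (hls : LsuStatement) (hdgu : DguStatement) (hmach : MachineStatement) : MainStatement := by
  intro k
  refine ⟨witU k, fin_cs hlba hls hmach k, fun h => h.1 rfl, ?_⟩
  intro Γ _ Θ π N hB
  exact fin_not huna hcor hdgu k Γ Θ π N hB

/-! ## With deterministic linear bounded automata -/

/-- Row DLB: arrays are simulated by deterministic linear bounded automata. -/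
def DlbStatement : Prop :=
  ∀ D : ℕ → Prop, Acceptable D →
    ∃ M : BGD.LBA Unit, M.Det ∧ ∀ w : List Unit, w ≠ [] → (D w.length ↔ M.Accepts w)

/-- The theorem with a deterministic context-sensitive language. -/
theorem fin_det (hdlb : DlbStatement) (huna : UnaStatement) (hcor : CorStatement)
    (hls : LsuStatement) (hdgu : DguStatement) (hmach : MachineStatement) (k : ℕ) :
    ∃ L : Set (List Unit), BGD.IsDCS L ∧ [] ∉ L ∧
      ∀ (Γ : Type) [Finite Γ] (Θ : Set (Tile Γ)) (π : Γ → Unit) (N : ℕ),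
        (∀ w ∈ L, N ≤ w.length → ∃ (m n : ℕ) (hm : 0 < m) (hn : 0 < n) (p : Pic Γ m n)
          (z : Bool × Bool), InLocal Θ p ∧ w = (BGD.frontier hm hn p).map π ∧
            bits z Θ p ≤ k * w.length) → bgrid Θ π ≠ L := by
  refine ⟨witU k, ?_, fun h => h.1 rfl, ?_⟩
  · obtain ⟨M, hM1, hM2⟩ := hdlb _ (fin_acc hls hmach k)
    refine ⟨M, hM1, fun w hw => ?_⟩
    rw [← hM2 w hw]
    exact ⟨fun h => h.2, fun h => ⟨hw, h⟩⟩
  · intro Γ _ Θ π N hB
    exact fin_not huna hcor hdgu k Γ Θ π N hB

end Pool.Agent.Lib.MP_4c536a_lc.BGU
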