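import Pool.Agent.Lib.MP_4c536a_lc.BGU.Defs
import Pool.Agent.Lib.MP_4c536a_lc.BG.Lsp

/-!
# MP_4c536a_lc, board BGU, row LSU: the diagonal function is of linear space
-/

set_option autoImplicit false

namespace Pool.Agent.Lib.MP_4c536a_lc.BGU

open Finset
open Pool.Agent.Lib.MP_2eed13_lc.LCA
open Pool.Agent.Lib.MP_2eed13_lc.LCA.H62
open Pool.Agent.Lib.MP_2eed13_lc.LCA.H79
open Pool.Agent.Lib.MP_4c536a_lc.BG (mainG lsp_mainG)

section

variable {α : Type} [Denumerable α]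

/-! ## 1. The scan -/

theorem lsu_rule5 {q T l o r d v : α → ℕ} (hq : LSf q) (hT : LSf T) (hl : LSf l) (ho : LSf o)
    (hr : LSf r) (hd : LSf d) (hv : LSf v) :
    LSf fun x => rule5 (q x) (T x) (l x) (o x) (r x) (d x) (v x) := by
  unfold rule5
  exact LSf.dig hq hT ((((((((hl.mul hq).add ho).mul hq).add hr).mul hq).add hd).mul hq).add hv)

theorem lsu_kind {m n i j : α → ℕ} (hm : LSf m) (hn : LSf n) (hi : LSf i) (hj : LSf j) :
    LSf fun x => kind (m x) (n x) (i x) (j x) := by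
  unfold kind
  refine LSf.ite (P := fun x : α => i x < m x ∧ j x < n x) ((LSp.le hi.succ hm).and
    (LSp.le hj.succ hn)) (LSf.const 0) ?_
  exact LSf.ite (P := fun x : α => i x ≤ m x ∧ j x ≤ n x) ((LSp.le hi hm).and (LSp.le hj hn))
    (LSf.const 1) (LSf.const 2)

theorem lsu_scanStep {C q T B a m n I J t X : α → ℕ} (hC : LSf C) (hq : LSf q) (hT : LSf T)
    (hB : LSf B) (ha : LSf a) (hm : LSf m) (hn : LSf n) (hI : LSf I) (hJ : LSf J) (ht : LSf t)
    (hX : LSf X) :
    LSf fun x => scanStep (C x) (q x) (T x) (B x) (a x) (m x) (n x) (I x) (J x) (t x) (X x) := by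
  have hP : LSf fun x => powc (q x) (2 * B x + 1) (C x) :=
    LSf.powc hq (((LSf.const 2).mul hB).succ) hC
  have hz : LSf fun x => B x + t x % B x - t x / B x := (hB.add (ht.mod hB)).sub (ht.div hB)
  have h1 : LSf fun x => dig (q x) (X x) (B x + t x % B x - t x / B x - 1) :=
    LSf.dig hq hX hz.pred
  have h2 : LSf fun x => dig (q x) (X x) (B x + t x % B x - t x / B x) := LSf.dig hq hX hz
  have h3 : LSf fun x => dig (q x) (X x) (B x + t x % B x - t x / B x + 1) :=
    LSf.dig hq hX hz.succ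
  have hk : LSf fun x => kind (m x) (n x) (I x * B x + t x / B x) (J x * B x + t x % B x) :=
    lsu_kind hm hn ((hI.mul hB).add (ht.div hB)) ((hJ.mul hB).add (ht.mod hB))
  have hc : LSf fun x => costN (q x) (T x)
      (kind (m x) (n x) (I x * B x + t x / B x) (J x * B x + t x % B x))
      (dig (q x) (X x) (B x + t x % B x - t x / B x - 1))
      (dig (q x) (X x) (B x + t x % B x - t x / B x))
      (dig (q x) (X x) (B x + t x % B x - t x / B x + 1)) := by
    unfold costN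
    exact lsu_rule5 hq hT h1 h2 h3 (LSf.const 0) (hk.add (LSf.const 3))
  have hd : LSf fun x => a x / powc 2 (X x / powc (q x) (2 * B x + 1) (C x)) (C x) %
      powc 2 (costN (q x) (T x)
      (kind (m x) (n x) (I x * B x + t x / B x) (J x * B x + t x % B x))
      (dig (q x) (X x) (B x + t x % B x - t x / B x - 1))
      (dig (q x) (X x) (B x + t x % B x - t x / B x))
      (dig (q x) (X x) (B x + t x % B x - t x / B x + 1))) (C x) :=
    (ha.div (LSf.powc (LSf.const 2) (hX.div hP) hC)).mod (LSf.powc (LSf.const 2) hc hC)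
  have hv : LSf fun x => nextN (q x) (T x)
      (kind (m x) (n x) (I x * B x + t x / B x) (J x * B x + t x % B x))
      (dig (q x) (X x) (B x + t x % B x - t x / B x - 1))
      (dig (q x) (X x) (B x + t x % B x - t x / B x))
      (dig (q x) (X x) (B x + t x % B x - t x / B x + 1))
      (a x / powc 2 (X x / powc (q x) (2 * B x + 1) (C x)) (C x) %
      powc 2 (costN (q x) (T x)
      (kind (m x) (n x) (I x * B x + t x / B x) (J x * B x + t x % B x))
      (dig (q x) (X x) (B x + t x % B x - t x / B x - 1))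
      (dig (q x) (X x) (B x + t x % B x - t x / B x))
      (dig (q x) (X x) (B x + t x % B x - t x / B x + 1))) (C x)) := by
    unfold nextN
    exact lsu_rule5 hq hT h1 h2 h3 hd hk
  have p1 : LSf fun x : α × ℕ => x.1 := LSf.fst LSf.id
  have p2 : LSf fun x : α × ℕ => x.2 := LSf.snd LSf.id
  unfold scanStep
  refine (LSf.sum ((LSf.const 2).mul hB).succ ?_).add (((hX.div hP).add hc).mul hP)
  refine LSf.mul ?_ (LSf.powc (hq.comp p1) p2 (hC.comp p1))
  exact LSf.ite (P := fun x : α × ℕ => x.2 = B x.1 + t x.1 % B x.1 - t x.1 / B x.1)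
    (LSp.eq p2 (hz.comp p1)) (hv.comp p1) (LSf.dig (hq.comp p1) (hX.comp p1) p2)

theorem lsu_scan_le (C β T B a m n I J X : ℕ) (t : ℕ) :
    runTo (scanStep C (powc 2 β C) T B a m n I J) t X ≤
      X + t * ((2 * B + 1) * ((T + C) * C) + T * C) := by
  induction t with
  | zero => exact Nat.le_add_right _ _
  | succ t ih =>
    show scanStep C (powc 2 β C) T B a m n I J t
      (runTo (scanStep C (powc 2 β C) T B a m n I J) t X) ≤ _
    set Y := runTo (scanStep C (powc 2 β C) T B a m n I J) t X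
    have hA : scanStep C (powc 2 β C) T B a m n I J t Y ≤
        (2 * B + 1) * ((T + C) * C) + (Y + T * C) := by
      unfold scanStep
      refine Nat.add_le_add ?_ ?_
      · calc _ ≤ ∑ _k ∈ range (2 * B + 1), (T + C) * C := by
              refine Finset.sum_le_sum fun k _ => ?_
              rcases Nat.eq_zero_or_pos C with h0 | h0
              · subst h0
                have : powc (powc 2 β 0) k 0 = 0 := Nat.min_zero _
                rw [this]
                simp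
              · have hq : 1 ≤ powc 2 β C := le_min Nat.one_le_two_pow h0
                refine Nat.mul_le_mul ?_ (Nat.min_le_right _ _)
                split_ifs
                · exact (dig_le_self _ _ _).trans (Nat.le_add_right _ _)
                · exact ((dig_le hq _ _).trans (Nat.min_le_right _ _)).trans
                    (Nat.le_add_left _ _)
          _ = (2 * B + 1) * ((T + C) * C) := by simp
      · rw [Nat.add_mul]
        refine Nat.add_le_add (Nat.div_mul_le_self _ _) ?_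
        exact Nat.mul_le_mul (dig_le_self _ _ _) (Nat.min_le_right _ _)
    calc _ ≤ _ := hA
      _ ≤ (2 * B + 1) * ((T + C) * C) + (X + t * ((2 * B + 1) * ((T + C) * C) + T * C) + T * C) := by
          omega
      _ = _ := by ring

theorem lsu_scan {C β T B a m n I J N X : α → ℕ} (hC : LSf C) (hβ : LSf β) (hT : LSf T)
    (hB : LSf B) (ha : LSf a) (hm : LSf m) (hn : LSf n) (hI : LSf I) (hJ : LSf J) (hN : LSf N)
    (hX : LSf X) :
    LSf fun x => runTo (scanStep (C x) (powc 2 (β x) (C x)) (T x) (B x) (a x) (m x) (n x)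
      (I x) (J x)) (N x) (X x) := by
  have p1 : LSf fun p : α × ℕ × ℕ => p.1 := LSf.fst LSf.id
  have p2 : LSf fun p : α × ℕ × ℕ => p.2.1 := LSf.fst (LSf.snd LSf.id)
  have p3 : LSf fun p : α × ℕ × ℕ => p.2.2 := LSf.snd (LSf.snd LSf.id)
  have hq : LSf fun x => powc 2 (β x) (C x) := LSf.powc (LSf.const 2) hβ hC
  have hD : LSf fun x => (2 * B x + 1) * ((T x + C x) * C x) + T x * C x :=
    (((LSf.const 2).mul hB).succ.mul ((hT.add hC).mul hC)).add (hT.mul hC)
  refine LSf.runTo (f := X) (g := fun x => scanStep (C x) (powc 2 (β x) (C x)) (T x) (B x) (a x)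
    (m x) (n x) (I x) (J x))
    (B := fun x => X x + N x * ((2 * B x + 1) * ((T x + C x) * C x) + T x * C x)) hX ?_ hN
    (hX.add (hN.mul hD)) ?_
  · exact lsu_scanStep (α := α × ℕ × ℕ) (hC.comp p1) (hq.comp p1) (hT.comp p1) (hB.comp p1)
      (ha.comp p1) (hm.comp p1) (hn.comp p1) (hI.comp p1) (hJ.comp p1) p2 p3
  · intro x t ht
    exact (lsu_scan_le _ _ _ _ _ _ _ _ _ _ _).trans (Nat.add_le_add_left
      (Nat.mul_le_mul_right _ ht) _)

/-! ## 2. The block map and the leaves -/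

theorem lsu_P {C β B : α → ℕ} (hC : LSf C) (hβ : LSf β) (hB : LSf B) :
    LSf fun x => powc 2 (B x * (3 * β x + 1)) (C x) :=
  LSf.powc (LSf.const 2) (hB.mul (((LSf.const 3).mul hβ).succ)) hC

theorem lsu_P2 {C β B : α → ℕ} (hC : LSf C) (hβ : LSf β) (hB : LSf B) :
    LSf fun x => powc 2 (2 * (B x * (3 * β x + 1))) (C x) :=
  LSf.powc (LSf.const 2) ((LSf.const 2).mul (hB.mul (((LSf.const 3).mul hβ).succ))) hC

theorem lsu_Q {C β B : α → ℕ} (hC : LSf C) (hβ : LSf β) (hB : LSf B) :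
    LSf fun x => powc 2 (3 * B x * β x) (C x) :=
  LSf.powc (LSf.const 2) (((LSf.const 3).mul hB).mul hβ) hC

theorem lsu_idxU {C β B R' y : α → ℕ} (hC : LSf C) (hβ : LSf β) (hB : LSf B) (hR : LSf R')
    (hy : LSf y) : LSf fun x => idxU (C x) (β x) (B x) (R' x) (y x) := by
  unfold idxU
  exact (((hy.div (lsu_P hC hβ hB)).mod (lsu_P hC hβ hB)).div (lsu_Q hC hβ hB)).add
    (((LSf.const 2).mul hR).succ)

theorem lsu_startU {C β B y s : α → ℕ} (hC : LSf C) (hβ : LSf β) (hB : LSf B)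
    (hy : LSf y) (hs : LSf s) : LSf fun x => startU (C x) (β x) (B x) (y x) (s x) := by
  have hq : LSf fun x => powc 2 (β x) (C x) := LSf.powc (LSf.const 2) hβ hC
  have h1 : LSf fun x => powc (powc 2 (β x) (C x)) (B x) (C x) := LSf.powc hq hB hC
  have h2 : LSf fun x => powc (powc 2 (β x) (C x)) (B x + 1) (C x) := LSf.powc hq hB.succ hC
  have h3 : LSf fun x => powc (powc 2 (β x) (C x)) (2 * B x + 1) (C x) :=
    LSf.powc hq ((LSf.const 2).mul hB).succ hC
  unfold startU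
  exact ((((hy.mod (lsu_Q hC hβ hB)).div h1).mod h2).add
    (((((hy.div (lsu_P2 hC hβ hB)).mod (lsu_Q hC hβ hB)).div hq).mod h1).mul h2)).add
    (hs.mul h3)

theorem lsu_GU {C β T B R' g a m n pt y : α → ℕ} (hC : LSf C) (hβ : LSf β) (hT : LSf T)
    (hB : LSf B) (hR : LSf R') (hg : LSf g) (ha : LSf a) (hm : LSf m) (hn : LSf n)
    (hpt : LSf pt) (hy : LSf y) :
    LSf fun x => GU (C x) (β x) (T x) (B x) (R' x) (g x) (a x) (m x) (n x) (pt x) (y x) := by
  have he : LSf fun x => idxU (C x) (β x) (B x) (R' x) (y x) := lsu_idxU hC hβ hB hR hy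
  have hW : LSf fun x => 2 * R' x + 1 := ((LSf.const 2).mul hR).succ
  have h1 : LSf fun x => idxU (C x) (β x) (B x) (R' x) (y x) / (2 * R' x + 1) := he.div hW
  have h2 : LSf fun x => idxU (C x) (β x) (B x) (R' x) (y x) % (2 * R' x + 1) := he.mod hW
  have hq : LSf fun x => powc 2 (β x) (C x) := LSf.powc (LSf.const 2) hβ hC
  unfold GU
  refine LSf.add ?_ ((he.mod (LSf.powc (LSf.const 2) hB hC)).mul (lsu_Q hC hβ hB))
  refine LSf.ite (P := fun x : α => R' x + 1 ≤ idxU (C x) (β x) (B x) (R' x) (y x) /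
      (2 * R' x + 1) + idxU (C x) (β x) (B x) (R' x) (y x) % (2 * R' x + 1) ∧
      idxU (C x) (β x) (B x) (R' x) (y x) % (2 * R' x + 1) + 1 ≤
        idxU (C x) (β x) (B x) (R' x) (y x) / (2 * R' x + 1) + R' x)
    ((LSp.le hR.succ (h1.add h2)).and (LSp.le h2.succ (h1.add hR))) ?_ (LSf.const 0)
  refine LSf.mod ?_ (LSf.powc hq ((LSf.const 2).mul hB).succ hC)
  exact lsu_scan hC hβ hT hB ha hm hn (((h1.add hR).sub h2.succ).div (LSf.const 2))
    (((h1.add h2).sub hR.succ).div (LSf.const 2)) (hB.mul hB)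
    (lsu_startU hC hβ hB hy (LSf.dig (LSf.powc (LSf.const 2) hg hC) hpt he))

theorem lsu_LU {C β B i : α → ℕ} (hC : LSf C) (hβ : LSf β) (hB : LSf B) (hi : LSf i) :
    LSf fun x => LU (C x) (β x) (B x) (i x) := by
  unfold LU
  exact (hi.mod (LSf.powc (LSf.const 2) hB hC)).mul (lsu_Q hC hβ hB)

/-! ## 3. The outcome -/

theorem lsu_widU {n β : α → ℕ} (hn : LSf n) (hβ : LSf β) : LSf fun x => widU (n x) (β x) := by
  unfold widU
  exact hn.div ((((LSf.const 16).mul hβ)).mul (log_ls.comp hn).succ)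

theorem lsu_numU {n β : α → ℕ} (hn : LSf n) (hβ : LSf β) : LSf fun x => numU (n x) (β x) := by
  unfold numU
  exact hn.div (lsu_widU hn hβ)

theorem lsu_gU {k : ℕ} {n : α → ℕ} (hn : LSf n) : LSf fun x => gU k (n x) := by
  unfold gU
  exact (log_ls.comp hn).succ.add (LSf.const k)

theorem lsu_prmU {n β : α → ℕ} (hn : LSf n) (hβ : LSf β) : LSf fun x => prmU (n x) (β x) := by
  unfold prmU
  exact primeFor_ls.comp (((LSf.const 3).mul ((lsu_widU hn hβ).mul
    (((LSf.const 3).mul hβ).succ))).succ.succ)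

theorem lsu_outU {k : ℕ} {C n e c a pt : α → ℕ} (hC : LSf C) (hn : LSf n) (he : LSf e)
    (hc : LSf c) (ha : LSf a) (hpt : LSf pt) :
    LSf fun x => outU k (C x) (n x) (e x) (c x) (a x) (pt x) := by
  have hβ : LSf fun x => (e x).unpair.1 + 1 := he.unpair1.succ
  have hT : LSf fun x => (e x).unpair.2 := he.unpair2
  have hW : LSf fun x => widU (n x) ((e x).unpair.1 + 1) := lsu_widU hn hβ
  have hR : LSf fun x => 2 * numU (n x) ((e x).unpair.1 + 1) + 1 :=
    ((LSf.const 2).mul (lsu_numU hn hβ)).succ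
  have hb : LSf fun x => widU (n x) ((e x).unpair.1 + 1) * (3 * ((e x).unpair.1 + 1) + 1) :=
    hW.mul (((LSf.const 3).mul hβ).succ)
  have hp : LSf fun x => prmU (n x) ((e x).unpair.1 + 1) := lsu_prmU hn hβ
  have hp1 : ∀ x, 1 ≤ prmU (n x) ((e x).unpair.1 + 1) := fun x =>
    le_trans (by omega) (primeFor_ge _)
  have p1 : LSf fun x : α × ℕ => x.1 := LSf.fst LSf.id
  have p2 : LSf fun x : α × ℕ => x.2 := LSf.snd LSf.id
  have hG : LSf fun y : α × ℕ => GU (C y.1) ((e y.1).unpair.1 + 1) (e y.1).unpair.2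
      (widU (n y.1) ((e y.1).unpair.1 + 1)) (2 * numU (n y.1) ((e y.1).unpair.1 + 1) + 1)
      (gU k (n y.1)) (a y.1) (c y.1 + 1) (n y.1 - c y.1) (pt y.1) y.2 :=
    lsu_GU (hC.comp p1) (hβ.comp p1) (hT.comp p1) (hW.comp p1) (hR.comp p1)
      (lsu_gU (hn.comp p1)) (ha.comp p1) (hc.comp p1).succ ((hn.sub hc).comp p1)
      (hpt.comp p1) p2
  have hL : LSf fun y : α × ℕ => LU (C y.1) ((e y.1).unpair.1 + 1)
      (widU (n y.1) ((e y.1).unpair.1 + 1)) y.2 :=
    lsu_LU (hC.comp p1) (hβ.comp p1) (hW.comp p1) p2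
  unfold outU
  exact LSf.dig hp (lsp_mainG (G := fun x => GU (C x) ((e x).unpair.1 + 1) (e x).unpair.2
      (widU (n x) ((e x).unpair.1 + 1)) (2 * numU (n x) ((e x).unpair.1 + 1) + 1)
      (gU k (n x)) (a x) (c x + 1) (n x - c x) (pt x))
      (L := fun x => LU (C x) ((e x).unpair.1 + 1) (widU (n x) ((e x).unpair.1 + 1)))
      hC hp hb hR hG hL hp1) (hW.mul hβ)

theorem lsu_pow {x : α → ℕ} (hx : LSf x) (k : ℕ) : LSf fun a => x a ^ k := by
  induction k with
  | zero => exact LSf.const 1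
  | succ k ih => exact ih.mul hx

end

/-- Row LSU. -/
theorem lsu_proof : LsuStatement := by
  intro k
  have r0 : LSf fun y : ((ℕ × ℕ) × ℕ) × ℕ => y.1.1.1 := LSf.fst (LSf.fst (LSf.fst LSf.id))
  have r1 : LSf fun y : ((ℕ × ℕ) × ℕ) × ℕ => y.1.1.2 := LSf.snd (LSf.fst (LSf.fst LSf.id))
  have r2 : LSf fun y : ((ℕ × ℕ) × ℕ) × ℕ => y.1.2 := LSf.snd (LSf.fst LSf.id)
  have r3 : LSf fun y : ((ℕ × ℕ) × ℕ) × ℕ => y.2 := LSf.snd LSf.id
  have hn : LSf fun y : ((ℕ × ℕ) × ℕ) × ℕ => Nat.log 2 y.1.1.1 := log_ls.comp r0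
  have hout : LSf fun y : ((ℕ × ℕ) × ℕ) × ℕ => outU k (y.1.1.1 ^ (k + 1)) (Nat.log 2 y.1.1.1)
      (Nat.log 2 y.1.1.1).unpair.1 y.1.1.2 y.1.2 y.2 :=
    lsu_outU (lsu_pow r0 (k + 1)) hn hn.unpair1 r1 r2 r3
  have h3 : LSf fun y : (ℕ × ℕ) × ℕ => ∑ pt ∈ range y.1.1,
      if outU k (y.1.1 ^ (k + 1)) (Nat.log 2 y.1.1) (Nat.log 2 y.1.1).unpair.1 y.1.2 y.2 pt = 0
      then 1 else 0 := by
    refine LSf.sum (LSf.fst (LSf.fst LSf.id)) ?_
    exact LSf.ite (P := fun y : ((ℕ × ℕ) × ℕ) × ℕ => outU k (y.1.1.1 ^ (k + 1))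
      (Nat.log 2 y.1.1.1) (Nat.log 2 y.1.1.1).unpair.1 y.1.1.2 y.1.2 y.2 = 0)
      (LSp.eq hout (LSf.const 0)) (LSf.const 1) (LSf.const 0)
  have h2 : LSf fun y : ℕ × ℕ => ∑ a ∈ range (y.1 ^ k), ∑ pt ∈ range y.1,
      if outU k (y.1 ^ (k + 1)) (Nat.log 2 y.1) (Nat.log 2 y.1).unpair.1 y.2 a pt = 0
      then 1 else 0 :=
    LSf.sum (lsu_pow (LSf.fst LSf.id) k) h3
  have h1 : LSf fun x : ℕ => ∑ c ∈ range (Nat.log 2 x), ∑ a ∈ range (x ^ k), ∑ pt ∈ range x,
      if outU k (x ^ (k + 1)) (Nat.log 2 x) (Nat.log 2 x).unpair.1 c a pt = 0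
      then 1 else 0 :=
    LSf.sum log_ls h2
  have h0 : LSf (diagU k) := LSf.ite (P := fun x : ℕ => (∑ c ∈ range (Nat.log 2 x),
      ∑ a ∈ range (x ^ k), ∑ pt ∈ range x,
      if outU k (x ^ (k + 1)) (Nat.log 2 x) (Nat.log 2 x).unpair.1 c a pt = 0
      then 1 else 0) = 0) (LSp.eq h1 (LSf.const 0)) (LSf.const 1) (LSf.const 0)
  exact h0

end Pool.Agent.Lib.MP_4c536a_lc.BGU
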