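import Pool.Agent.Lib.MP_4c536a_lc.BGU.Defs

/-!
# MP_4c536a_lc, board BGU: row ORD, the sum over all places block by block
-/

set_option autoImplicit false

namespace Pool.Agent.Lib.MP_4c536a_lc.BGU

open Finset

theorem ord_mul (x y : ℕ) (g : ℕ → ℕ) :
    ∑ t ∈ range (x * y), g t = ∑ i ∈ range x, ∑ j ∈ range y, g (i * y + j) := by
  induction x with
  | zero => simp
  | succ x ih =>
    have e : (x + 1) * y = x * y + y := by ring
    rw [e, sum_range_add, ih, sum_range_succ]

theorem ord_plc {R B I J r c : ℕ} (hJ : J < R) (hr : r < B) (hc : c < B) :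
    plc R B ((I * R + J) * (B * B) + (r * B + c)) = (I * B + r, J * B + c) := by
  have hB : 0 < B := by omega
  have hR : 0 < R := by omega
  have hBB : 0 < B * B := Nat.mul_pos hB hB
  have h1 : r * B + c < B * B := by
    calc r * B + c < r * B + B := by omega
      _ = (r + 1) * B := by ring
      _ ≤ B * B := Nat.mul_le_mul_right _ hr
  have e1 : ((I * R + J) * (B * B) + (r * B + c)) / (B * B) = I * R + J := by
    rw [add_comm, Nat.add_mul_div_right _ _ hBB, Nat.div_eq_of_lt h1, zero_add]
  have e2 : ((I * R + J) * (B * B) + (r * B + c)) % (B * B) = r * B + c := by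
    rw [add_comm, Nat.add_mul_mod_self_right, Nat.mod_eq_of_lt h1]
  have e3 : (I * R + J) / R = I := by
    rw [add_comm, Nat.add_mul_div_right _ _ hR, Nat.div_eq_of_lt hJ, zero_add]
  have e4 : (I * R + J) % R = J := by
    rw [add_comm, Nat.add_mul_mod_self_right, Nat.mod_eq_of_lt hJ]
  have e5 : (r * B + c) / B = r := by
    rw [add_comm, Nat.add_mul_div_right _ _ hB, Nat.div_eq_of_lt hc, zero_add]
  have e6 : (r * B + c) % B = c := by
    rw [add_comm, Nat.add_mul_mod_self_right, Nat.mod_eq_of_lt hc]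
  unfold plc
  rw [e1, e2, e3, e4, e5, e6]

/-- Row ORD. -/
theorem ord_proof : OrdStatement := by
  intro R B f _ _
  have hl : ∑ t ∈ range (R * R * (B * B)), f (plc R B t).1 (plc R B t).2 =
      ∑ I ∈ range R, ∑ J ∈ range R, ∑ r ∈ range B, ∑ c ∈ range B, f (I * B + r) (J * B + c) := by
    rw [ord_mul (R * R) (B * B) fun t => f (plc R B t).1 (plc R B t).2,
      ord_mul R R fun u => ∑ j ∈ range (B * B),
        f (plc R B (u * (B * B) + j)).1 (plc R B (u * (B * B) + j)).2]
    refine sum_congr rfl fun I _ => sum_congr rfl fun J hJ => ?_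
    rw [ord_mul B B fun j => f (plc R B ((I * R + J) * (B * B) + j)).1
      (plc R B ((I * R + J) * (B * B) + j)).2]
    refine sum_congr rfl fun r hr => sum_congr rfl fun c hc => ?_
    rw [ord_plc (mem_range.1 hJ) (mem_range.1 hr) (mem_range.1 hc)]
  have hr : ∑ i ∈ range (R * B), ∑ j ∈ range (R * B), f i j =
      ∑ I ∈ range R, ∑ r ∈ range B, ∑ J ∈ range R, ∑ c ∈ range B, f (I * B + r) (J * B + c) := by
    rw [ord_mul R B fun i => ∑ j ∈ range (R * B), f i j]
    refine sum_congr rfl fun I _ => sum_congr rfl fun r _ => ?_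
    rw [ord_mul R B fun j => f (I * B + r) j]
  rw [hl, hr]
  refine sum_congr rfl fun I _ => ?_
  rw [sum_comm]

end Pool.Agent.Lib.MP_4c536a_lc.BGU
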