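import Pool.Agent.Lib.MP_4c536a_lc.BGU.Defs
import Pool.Agent.Lib.MP_2eed13_lc.LCA.H81.Ops

/-!
# MP_4c536a_lc, board BGU, row PTB: the table of pointers
-/

set_option autoImplicit false

namespace Pool.Agent.Lib.MP_4c536a_lc.BGU

open Finset
open Pool.Agent.Lib.MP_2eed13_lc.LCA

/-- The table depends only on the pointers of the blocks `(I, J)` with `I, J ≤ R`. -/
theorem ptb_tab {V : Type} (next : ℕ → V → V → V → ℕ → V) (cost : ℕ → V → V → V → ℕ) (h : V)
    (a m n B R : ℕ) (ptr ptr' : ℕ → ℕ → ℕ) (hB : 1 ≤ B)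
    (hp : ∀ I J, I ≤ R → J ≤ R → ptr I J = ptr' I J) : ∀ i j, i ≤ R * B + B → j ≤ R * B + B →
    tab next cost h a m n B ptr i j = tab next cost h a m n B ptr' i j := by
  intro i
  induction i with
  | zero =>
    intro j _ _
    rw [tab_zero_left, tab_zero_left]
  | succ i ihi =>
    intro j
    induction j with
    | zero =>
      intro _ _
      rw [tab_zero_right, tab_zero_right]
    | succ j ihj =>
      intro hi hj
      rw [tab_succ, tab_succ, ihj hi (by omega), ihi j (by omega) (by omega),
        ihi (j + 1) (by omega) hj]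
      have hs : (if j % B = 0 then (if i % B = 0 then ptr (i / B) (j / B) else
          (tab next cost h a m n B ptr i (j + B)).2)
          else (tab next cost h a m n B ptr' (i + 1) j).2) =
          (if j % B = 0 then (if i % B = 0 then ptr' (i / B) (j / B) else
          (tab next cost h a m n B ptr' i (j + B)).2)
          else (tab next cost h a m n B ptr' (i + 1) j).2) := by
        by_cases h1 : j % B = 0
        · rw [if_pos h1, if_pos h1]
          have e1 : (R + 1) * B = R * B + B := by ring
          by_cases h2 : i % B = 0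
          · rw [if_pos h2, if_pos h2]
            refine hp _ _ ?_ ?_
            · have : i / B < R + 1 := (Nat.div_lt_iff_lt_mul (by omega)).2 (by omega)
              omega
            · have : j / B < R + 1 := (Nat.div_lt_iff_lt_mul (by omega)).2 (by omega)
              omega
          · rw [if_neg h2, if_neg h2, ihi (j + B) (by omega)]
            have h3 : j / B < R + 1 := (Nat.div_lt_iff_lt_mul (by omega)).2 (by omega)
            have h4 : j = j / B * B := by
              have := Nat.div_add_mod j B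
              rw [h1, add_zero, mul_comm] at this
              exact this.symm
            have h5 : j / B * B ≤ R * B := Nat.mul_le_mul_right _ (by omega)
            omega
        · rw [if_neg h1, if_neg h1]
      rw [hs]

/-- The index of a block. -/
theorem ptb_idx (R I J : ℕ) (hI : I ≤ R) (hJ : J ≤ R) :
    (I + J + 1) * (2 * (2 * R + 1) + 1) + (J + (2 * R + 1) - I) <
      (2 * R + 2) * (2 * (2 * R + 1) + 1) ∧
    ((I + J + 1) * (2 * (2 * R + 1) + 1) + (J + (2 * R + 1) - I)) / (2 * (2 * R + 1) + 1) =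
      I + J + 1 ∧
    ((I + J + 1) * (2 * (2 * R + 1) + 1) + (J + (2 * R + 1) - I)) % (2 * (2 * R + 1) + 1) =
      J + (2 * R + 1) - I := by
  have h1 : J + (2 * R + 1) - I < 2 * (2 * R + 1) + 1 := by omega
  refine ⟨?_, ?_, ?_⟩
  · have h2 : (I + J + 1 + 1) * (2 * (2 * R + 1) + 1) ≤ (2 * R + 2) * (2 * (2 * R + 1) + 1) :=
      Nat.mul_le_mul_right _ (by omega)
    have h3 : (I + J + 1 + 1) * (2 * (2 * R + 1) + 1) =
        (I + J + 1) * (2 * (2 * R + 1) + 1) + (2 * (2 * R + 1) + 1) := by ring
    omega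
  · rw [mul_comm, Nat.mul_add_div (by omega), Nat.div_eq_of_lt h1, add_zero]
  · rw [mul_comm, Nat.mul_add_mod, Nat.mod_eq_of_lt h1]

/-- Row PTB. -/
theorem ptb_proof : PtbStatement := by
  intro V next cost h a m n B R g ptr hB hptr
  set f : ℕ → ℕ := fun e =>
    ptr ((e / (2 * (2 * R + 1) + 1) + (2 * R + 1) - (e % (2 * (2 * R + 1) + 1) + 1)) / 2)
      ((e / (2 * (2 * R + 1) + 1) + e % (2 * (2 * R + 1) + 1) - (2 * R + 1 + 1)) / 2) with hf
  have hq : 0 < 2 ^ g := Nat.pow_pos (by norm_num)
  have hlt : ∀ e, f e < 2 ^ g := fun e => hptr _ _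
  refine ⟨∑ e ∈ range ((2 * R + 2) * (2 * (2 * R + 1) + 1)), f e * (2 ^ g) ^ e, ?_, ?_⟩
  · rw [pow_mul]
    exact H81.sum_digits_lt _ hq f _ fun k _ => hlt k
  · refine ptb_tab next cost h a m n B R _ ptr hB ?_
    intro I J hI hJ
    obtain ⟨h1, h2, h3⟩ := ptb_idx R I J hI hJ
    unfold ptrT
    rw [H81.dig_sum _ hq f _ (fun k _ => hlt k) _ h1]
    show ptr _ _ = ptr I J
    rw [h2, h3]
    congr 1
    · omega
    · omega

end Pool.Agent.Lib.MP_4c536a_lc.BGU
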