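import Pool.Agent.Lib.MP_4c536a_lc.BGU.Defs
import Pool.Agent.Lib.MP_2eed13_lc.LCA.H81.Ops

/-!
# Row SCN: the scan of a block
-/

set_option autoImplicit false

namespace Pool.Agent.Lib.MP_4c536a_lc.BGU

open Finset
open Pool.Agent.Lib.MP_2eed13_lc.LCA

namespace ScnAux

/-- The row of the last processed place on the diagonal `z`, after `r` rows and `c` places of the
row number `r`. -/
def rho (B r c z : ℕ) : ℕ := max (B - z) (min (2 * B - z) (if r + 1 + z ≤ c + B then r + 1 else r))

theorem rho_start (B z : ℕ) : rho B 0 0 z = B - z := by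
  unfold rho
  split_ifs <;> omega

theorem rho_end (B z : ℕ) (hz : z < 2 * B + 1) : rho B B 0 z = B - (z - B) := by
  unfold rho
  split_ifs <;> omega

theorem rho_mid (B r c : ℕ) (hr : r < B) (hc : c < B) : rho B r c (B + c - r) = r := by
  unfold rho
  split_ifs <;> omega

theorem rho_left (B r c : ℕ) (hr : r < B) (hc : c < B) : rho B r c (B + c - r - 1) = r + 1 := by
  unfold rho
  split_ifs <;> omega

theorem rho_right (B r c : ℕ) (_ : r < B) (hc : c < B) : rho B r c (B + c - r + 1) = r := by
  unfold rho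
  split_ifs <;> omega

theorem rho_next (B r c z : ℕ) (_ : r < B) (_ : c + 1 < B) (hz : z ≠ B + c - r) :
    rho B r (c + 1) z = rho B r c z := by
  unfold rho
  split_ifs <;> omega

theorem rho_next' (B r c z : ℕ) (hr : r < B) (hc : c + 1 = B) (hz : z ≠ B + c - r) :
    rho B (r + 1) 0 z = rho B r c z := by
  unfold rho
  split_ifs <;> omega

theorem rho_new (B r c : ℕ) (hr : r < B) (hc : c + 1 < B) :
    rho B r (c + 1) (B + c - r) = r + 1 := by
  unfold rho
  split_ifs <;> omega

theorem rho_new' (B r c : ℕ) (hr : r < B) (hc : c + 1 = B) :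
    rho B (r + 1) 0 (B + c - r) = r + 1 := by
  unfold rho
  split_ifs <;> omega

theorem ar1 (B r c : ℕ) (_ : r < B) (_ : c < B) : B + c - r - 1 < 2 * B + 1 := by omega
theorem ar2 (B r c : ℕ) (_ : r < B) (_ : c < B) : B + c - r < 2 * B + 1 := by omega
theorem ar3 (B r c : ℕ) (_ : r < B) (_ : c < B) : B + c - r + 1 < 2 * B + 1 := by omega
theorem ar4 (B r c : ℕ) (_ : r < B) (_ : c < B) : r + 1 + (B + c - r - 1) - B = c := by omega
theorem ar5 (B r c : ℕ) (_ : r < B) (_ : c < B) : r + (B + c - r) - B = c := by omega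
theorem ar6 (B r c : ℕ) (_ : r < B) (_ : c < B) : r + (B + c - r + 1) - B = c + 1 := by omega
theorem ar7 (B r c : ℕ) (_ : r < B) (_ : c < B) : r + 1 + (B + c - r) - B = c + 1 := by omega

/-- Division of `t` and `t + 1` by `B`. -/
theorem next_div (B t : ℕ) (h : t % B + 1 < B) :
    (t + 1) / B = t / B ∧ (t + 1) % B = t % B + 1 := by
  have hB : 0 < B := by omega
  rw [Nat.div_mod_unique hB]
  have := Nat.mod_add_div t B
  exact ⟨by omega, h⟩

theorem next_div' (B t : ℕ) (hB : 0 < B) (h : t % B + 1 = B) :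
    (t + 1) / B = t / B + 1 ∧ (t + 1) % B = 0 := by
  rw [Nat.div_mod_unique hB]
  have := Nat.mod_add_div t B
  refine ⟨?_, hB⟩
  rw [Nat.mul_add]
  omega

/-- The new value of `rho` on all diagonals. -/
theorem rho_succ (B t z : ℕ) (hB : 0 < B) (ht : t / B < B) :
    rho B ((t + 1) / B) ((t + 1) % B) z =
      if z = B + t % B - t / B then t / B + 1 else rho B (t / B) (t % B) z := by
  have hc := Nat.mod_lt t hB
  by_cases h : t % B + 1 < B
  · obtain ⟨h1, h2⟩ := next_div B t h
    rw [h1, h2]
    split_ifs with hz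
    · rw [hz]; exact rho_new B _ _ ht h
    · exact rho_next B _ _ _ ht h hz
  · have h' : t % B + 1 = B := by omega
    obtain ⟨h1, h2⟩ := next_div' B t hB h'
    rw [h1, h2]
    split_ifs with hz
    · rw [hz]; exact rho_new' B _ _ ht h'
    · exact rho_next' B _ _ _ ht h' hz

section

variable (q T a m n B : ℕ) (ptr : ℕ → ℕ → ℕ)

theorem costN_lt (hq : 1 ≤ q) (v l o r : ℕ) : costN q T v l o r < q := Nat.mod_lt _ hq

theorem tab_lt (hq : 1 ≤ q) (i j : ℕ) : (tabN q T a m n B ptr i j).1 < q := by
  delta tabN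
  rcases i with _ | i
  · rw [tab_zero_left]; exact hq
  · rcases j with _ | j
    · rw [tab_zero_right]; exact hq
    · rw [tab_succ]
      exact Nat.mod_lt _ hq

/-- The digit number `z` after `t` steps. -/
def dg (I J t z : ℕ) : ℕ :=
  (tabN q T a m n B ptr (I * B + rho B (t / B) (t % B) z)
    (J * B + (rho B (t / B) (t % B) z + z - B))).1

/-- The pointer after `t` steps. -/
def sg (I J : ℕ) : ℕ → ℕ
  | 0 => ptr I J
  | t + 1 => (tabN q T a m n B ptr (I * B + t / B + 1) (J * B + t % B + 1)).2

theorem dg_lt (hq : 1 ≤ q) (I J t z : ℕ) : dg q T a m n B ptr I J t z < q :=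
  tab_lt q T a m n B ptr hq _ _

/-- The table at the place number `t` of the block. -/
theorem tab_place (I J t : ℕ) (hB : 1 ≤ B) (ht : t < B * B) :
    tabN q T a m n B ptr (I * B + t / B + 1) (J * B + t % B + 1) =
      cellStep (nextN q T) (costN q T) a (kind m n (I * B + t / B) (J * B + t % B))
        (dg q T a m n B ptr I J t (B + t % B - t / B - 1))
        (dg q T a m n B ptr I J t (B + t % B - t / B))
        (dg q T a m n B ptr I J t (B + t % B - t / B + 1))
        (sg q T a m n B ptr I J t) := by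
  have hB' : 0 < B := hB
  have hc : t % B < B := Nat.mod_lt _ hB'
  have hr : t / B < B := Nat.div_lt_of_lt_mul ht
  have e0 : tabN q T a m n B ptr (I * B + t / B + 1) (J * B + t % B + 1) = _ :=
    tab_succ (nextN q T) (costN q T) 0 a m n B ptr (I * B + t / B) (J * B + t % B)
  rw [e0]
  have e1 : (J * B + t % B) % B = t % B := by
    rw [Nat.mul_comm, Nat.mul_add_mod, Nat.mod_mod]
  have e2 : (I * B + t / B) % B = t / B := by
    rw [Nat.mul_comm, Nat.mul_add_mod, Nat.mod_eq_of_lt hr]
  have e3 : (I * B + t / B) / B = I := by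
    rw [Nat.mul_comm, Nat.mul_add_div hB', Nat.div_eq_of_lt hr, Nat.add_zero]
  have e4 : (J * B + t % B) / B = J := by
    rw [Nat.mul_comm, Nat.mul_add_div hB', Nat.div_eq_of_lt hc, Nat.add_zero]
  rw [e1, e2, e3, e4]
  have d1 : dg q T a m n B ptr I J t (B + t % B - t / B - 1) =
      (tabN q T a m n B ptr (I * B + t / B + 1) (J * B + t % B)).1 := by
    unfold dg
    rw [rho_left B _ _ hr hc, ar4 B _ _ hr hc]
    rfl
  have d2 : dg q T a m n B ptr I J t (B + t % B - t / B) =
      (tabN q T a m n B ptr (I * B + t / B) (J * B + t % B)).1 := by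
    unfold dg
    rw [rho_mid B _ _ hr hc, ar5 B _ _ hr hc]
  have d3 : dg q T a m n B ptr I J t (B + t % B - t / B + 1) =
      (tabN q T a m n B ptr (I * B + t / B) (J * B + t % B + 1)).1 := by
    unfold dg
    rw [rho_right B _ _ hr hc, ar6 B _ _ hr hc]
    rfl
  rw [d1, d2, d3]
  congr 1
  rcases t with _ | t
  · rw [Nat.zero_mod, Nat.zero_div, if_pos rfl, if_pos rfl]
    rfl
  · show _ = (tabN q T a m n B ptr (I * B + t / B + 1) (J * B + t % B + 1)).2
    have hct : t % B < B := Nat.mod_lt _ hB'
    by_cases h : t % B + 1 < B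
    · obtain ⟨h1, h2⟩ := next_div B t h
      rw [h1, h2, if_neg (by omega)]
      rfl
    · have h' : t % B + 1 = B := by omega
      obtain ⟨h1, h2⟩ := next_div' B t hB' h'
      rw [h1, h2, if_pos rfl, if_neg (Nat.succ_ne_zero _)]
      congr 2
      rw [Nat.add_zero, Nat.add_assoc, h']

/-- The state after `t` steps. -/
def stt (I J t : ℕ) : ℕ :=
  (∑ z ∈ range (2 * B + 1), dg q T a m n B ptr I J t z * q ^ z) +
    sg q T a m n B ptr I J t * q ^ (2 * B + 1)

theorem stt_div (hq : 1 ≤ q) (I J t : ℕ) :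
    stt q T a m n B ptr I J t / q ^ (2 * B + 1) = sg q T a m n B ptr I J t := by
  unfold stt
  rw [Nat.add_mul_div_right _ _ (Nat.pow_pos hq), Nat.div_eq_of_lt, zero_add]
  exact H81.sum_digits_lt q hq _ _ fun k _ => dg_lt q T a m n B ptr hq I J t k

theorem stt_dig (hq : 1 ≤ q) (I J t z : ℕ) (hz : z < 2 * B + 1) :
    dig q (stt q T a m n B ptr I J t) z = dg q T a m n B ptr I J t z := by
  have h1 : dig q (∑ z ∈ range (2 * B + 1), dg q T a m n B ptr I J t z * q ^ z) z =
      dg q T a m n B ptr I J t z :=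
    H81.dig_sum q hq _ _ (fun k _ => dg_lt q T a m n B ptr hq I J t k) z hz
  rw [← h1]
  unfold stt dig
  have e : q ^ (2 * B + 1) = q * q ^ (2 * B - z) * q ^ z := by
    rw [← pow_succ', ← pow_add]
    congr 1
    omega
  rw [e, show ∀ x y w : ℕ, x * (q * y * w) = q * (x * y) * w by intros; ring,
    Nat.add_mul_div_right _ _ (Nat.pow_pos hq), Nat.add_mul_mod_self_left]

/-- One step of the scan. -/
theorem scan_step (C I J t : ℕ) (hq : 1 ≤ q) (hB : 1 ≤ B) (hC : q ^ (2 * B + 1) ≤ C)
    (h2 : 2 ^ q ≤ C) (ha : a < C) (ht : t < B * B) :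
    scanStep C q T B a m n I J t (stt q T a m n B ptr I J t) =
      stt q T a m n B ptr I J (t + 1) := by
  have hB' : 0 < B := hB
  have hc : t % B < B := Nat.mod_lt _ hB'
  have hr : t / B < B := Nat.div_lt_of_lt_mul ht
  have hpw : ∀ k, k ≤ 2 * B + 1 → powc q k C = q ^ k := fun k hk => by
    unfold powc
    exact min_eq_left ((Nat.pow_le_pow_right hq hk).trans hC)
  have hdiv : ∀ s, a / powc 2 s C = a / 2 ^ s := fun s => by
    unfold powc
    rcases le_total (2 ^ s) C with h | h
    · rw [min_eq_left h]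
    · rw [min_eq_right h, Nat.div_eq_of_lt ha, Nat.div_eq_of_lt (lt_of_lt_of_le ha h)]
  have hcp : ∀ v l o r, powc 2 (costN q T v l o r) C = 2 ^ costN q T v l o r :=
    fun v l o r => by
      unfold powc
      exact min_eq_left
        ((Nat.pow_le_pow_right (by norm_num) (costN_lt q T hq v l o r).le).trans h2)
  have hpl := tab_place q T a m n B ptr I J t hB ht
  unfold scanStep
  rw [hpw _ le_rfl, stt_div q T a m n B ptr hq, hdiv, stt_dig q T a m n B ptr hq I J t _
    (ar1 B _ _ hr hc),
    stt_dig q T a m n B ptr hq I J t _ (ar2 B _ _ hr hc),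
    stt_dig q T a m n B ptr hq I J t _ (ar3 B _ _ hr hc), hcp]
  unfold cellStep at hpl
  have hs : sg q T a m n B ptr I J (t + 1) = sg q T a m n B ptr I J t +
      costN q T (kind m n (I * B + t / B) (J * B + t % B))
        (dg q T a m n B ptr I J t (B + t % B - t / B - 1))
        (dg q T a m n B ptr I J t (B + t % B - t / B))
        (dg q T a m n B ptr I J t (B + t % B - t / B + 1)) := by
    show (tabN q T a m n B ptr (I * B + t / B + 1) (J * B + t % B + 1)).2 = _
    rw [hpl]
  have hd : ∀ z, z < 2 * B + 1 → dg q T a m n B ptr I J (t + 1) z =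
      if z = B + t % B - t / B then
        nextN q T (kind m n (I * B + t / B) (J * B + t % B))
          (dg q T a m n B ptr I J t (B + t % B - t / B - 1))
          (dg q T a m n B ptr I J t (B + t % B - t / B))
          (dg q T a m n B ptr I J t (B + t % B - t / B + 1))
          (a / 2 ^ sg q T a m n B ptr I J t %
            2 ^ costN q T (kind m n (I * B + t / B) (J * B + t % B))
              (dg q T a m n B ptr I J t (B + t % B - t / B - 1))
              (dg q T a m n B ptr I J t (B + t % B - t / B))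
              (dg q T a m n B ptr I J t (B + t % B - t / B + 1)))
      else dg q T a m n B ptr I J t z := by
    intro z _
    by_cases hz : z = B + t % B - t / B
    · rw [if_pos hz]
      have h3 : dg q T a m n B ptr I J (t + 1) z =
          (tabN q T a m n B ptr (I * B + t / B + 1) (J * B + t % B + 1)).1 := by
        unfold dg
        rw [rho_succ B t z hB' hr, if_pos hz, hz, ar7 B _ _ hr hc]
        rfl
      rw [h3, hpl]
    · rw [if_neg hz]
      unfold dg
      rw [rho_succ B t z hB' hr, if_neg hz]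
  unfold stt
  rw [hs]
  congr 1
  refine sum_congr rfl fun z hz => ?_
  have hz' := mem_range.1 hz
  rw [hpw z (by omega), hd z hz', ← stt_dig q T a m n B ptr hq I J t z hz']
  rfl

end

end ScnAux

open ScnAux in
theorem scn_proof : ScnStatement := by
  intro C q T B a m n I J ptr hq hB hC h2 ha
  have hB' : 0 < B := hB
  have hrun : ∀ t, t ≤ B * B → runTo (scanStep C q T B a m n I J) t
      (stt q T a m n B ptr I J 0) = stt q T a m n B ptr I J t := by
    intro t
    induction t with
    | zero => intro _; rfl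
    | succ t ih =>
      intro ht
      show scanStep C q T B a m n I J t _ = _
      rw [ih (by omega)]
      exact scan_step q T a m n B ptr C I J t hq hB hC h2 ha (by omega)
  have h0 : (∑ z ∈ range (2 * B + 1),
      (tabN q T a m n B ptr (I * B + (B - z)) (J * B + (z - B))).1 * q ^ z) +
        ptr I J * q ^ (2 * B + 1) = stt q T a m n B ptr I J 0 := by
    unfold stt
    congr 1
    refine sum_congr rfl fun z _ => ?_
    unfold dg
    rw [Nat.zero_div, Nat.zero_mod, rho_start]
    congr 4
    omega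
  rw [h0, hrun _ le_rfl]
  have h1 : stt q T a m n B ptr I J (B * B) % q ^ (2 * B + 1) =
      ∑ z ∈ range (2 * B + 1), dg q T a m n B ptr I J (B * B) z * q ^ z := by
    unfold stt
    rw [Nat.add_mul_mod_self_right, Nat.mod_eq_of_lt]
    exact H81.sum_digits_lt q hq _ _ fun k _ => dg_lt q T a m n B ptr hq I J _ k
  rw [h1]
  refine sum_congr rfl fun z hz => ?_
  have hz' := mem_range.1 hz
  unfold dg
  rw [Nat.mul_div_cancel _ hB', Nat.mul_mod_left, rho_end B z hz']
  congr 4
  omega

end Pool.Agent.Lib.MP_4c536a_lc.BGU
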