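import Pool.Agent.Lib.MP_4c536a_lc.BGU.Defs

/-!
# MP_4c536a_lc, board BGU, row SIZ: sizes
-/

set_option autoImplicit false

namespace Pool.Agent.Lib.MP_4c536a_lc.BGU

theorem siz_pow (t : ℕ) (ht : 44 ≤ t) : 23040 * (t + 1) ^ 5 ≤ 2 ^ t := by
  induction t, ht using Nat.le_induction with
  | base => norm_num
  | succ t ht ih =>
    have h2 : 2 ^ (t + 1) = 2 * 2 ^ t := by ring
    have h3 : (t + 1 + 1) ^ 5 ≤ 2 * (t + 1) ^ 5 := by
      obtain ⟨s, rfl⟩ : ∃ s, t = s + 44 := ⟨t - 44, by omega⟩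
      have : 2 * (s + 44 + 1) ^ 5 = (s + 44 + 1 + 1) ^ 5 +
        (s ^ 5 + 220 * s ^ 4 + 19340 * s ^ 3 + 849140 * s ^ 2 + 18618970 * s + 163093274) := by
        ring
      omega
    rw [h2]
    calc 23040 * (t + 1 + 1) ^ 5 ≤ 23040 * (2 * (t + 1) ^ 5) := Nat.mul_le_mul_left _ h3
      _ = 2 * (23040 * (t + 1) ^ 5) := by ring
      _ ≤ 2 * 2 ^ t := Nat.mul_le_mul_left _ ih

theorem siz_proof : SizStatement := by
  intro k β hβ
  refine ⟨2 ^ (β + k + 44), fun n hn => ?_⟩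
  have hn1 : 1 ≤ n := le_trans Nat.one_le_two_pow hn
  have hn0 : n ≠ 0 := by omega
  obtain ⟨t, ht⟩ : ∃ t, t = Nat.log 2 n := ⟨_, rfl⟩
  have htβ : β + k + 44 ≤ t := by
    rw [ht]
    exact Nat.le_log_of_pow_le (by norm_num) hn
  have hlow : 2 ^ t ≤ n := by
    rw [ht]
    exact Nat.pow_log_le_self 2 hn0
  have hup : n < 2 ^ (t + 1) := by
    rw [ht]
    exact Nat.lt_pow_succ_log_self (by norm_num) n
  obtain ⟨K, hK⟩ : ∃ K, K = t + 1 := ⟨_, rfl⟩
  have hpow : 23040 * K ^ 5 ≤ n := by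
    rw [hK]
    exact (siz_pow t (by omega)).trans hlow
  rw [← hK] at hup
  have hK45 : 45 ≤ K := by omega
  have hβK : β ≤ K := by omega
  have hkK : k ≤ K := by omega
  have hwd : widU n β = n / (16 * β * K) := by rw [widU, ← ht, ← hK]
  have hg : gU k n = K + k := by rw [gU, ← ht, ← hK]
  have hnum : numU n β = n / widU n β := rfl
  rw [hg, hnum]
  obtain ⟨w, hw⟩ : ∃ w, w = widU n β := ⟨_, rfl⟩
  rw [← hw]
  rw [hwd] at hw
  obtain ⟨c, hc⟩ : ∃ c, c = 16 * β * K := ⟨_, rfl⟩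
  rw [← hc] at hw
  have hcpos : 1 ≤ c := by
    rw [hc]
    exact Nat.succ_le_of_lt (by positivity)
  have hcK : c ≤ 16 * K ^ 2 := by
    rw [hc]
    calc 16 * β * K ≤ 16 * K * K := by gcongr
      _ = 16 * K ^ 2 := by ring
  have hwc : w * c ≤ n := by
    rw [hw]
    exact Nat.div_mul_le_self _ _
  have hK1 : 1 ≤ K := by omega
  have hK2 : K ≤ K ^ 2 := by nlinarith
  have hK3 : K ^ 2 ≤ K ^ 3 := Nat.pow_le_pow_right hK1 (by norm_num)
  have hK4 : K ^ 3 ≤ K ^ 5 := Nat.pow_le_pow_right hK1 (by norm_num)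
  have hwK : K ≤ w := by
    rw [hw, Nat.le_div_iff_mul_le (by omega)]
    calc K * c ≤ K * (16 * K ^ 2) := Nat.mul_le_mul_left _ hcK
      _ = 16 * K ^ 3 := by ring
      _ ≤ n := by omega
  have hwpos : 0 < w := by omega
  have hnw : n ≤ 2 * c * w := by
    have h1 : n < c * (w + 1) := by
      rw [hw]
      exact Nat.lt_mul_div_succ n (by omega)
    have : c * (w + 1) ≤ c * (2 * w) := Nat.mul_le_mul_left _ (by omega)
    calc n ≤ c * (w + 1) := h1.le
      _ ≤ c * (2 * w) := this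
      _ = 2 * c * w := by ring
  obtain ⟨R, hR⟩ : ∃ R, R = n / w := ⟨_, rfl⟩
  rw [← hR]
  have hRc : R ≤ 2 * c := by
    rw [hR]
    exact Nat.div_le_of_le_mul (by linarith [hnw, mul_comm w (2 * c)])
  have hc16 : 16 * K ≤ c := by
    rw [hc]
    calc 16 * K = 16 * 1 * K := by ring
      _ ≤ 16 * β * K := by gcongr
  have hprod : (2 * R + 2) * (2 * (2 * R + 1) + 1) ≤ 45 * c ^ 2 := by
    calc (2 * R + 2) * (2 * (2 * R + 1) + 1) ≤ (5 * c) * (9 * c) := by
          apply Nat.mul_le_mul <;> omega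
      _ = 45 * c ^ 2 := by ring
  have hc2 : c ^ 2 ≤ 256 * K ^ 4 := by
    calc c ^ 2 ≤ (16 * K ^ 2) ^ 2 := Nat.pow_le_pow_left hcK 2
      _ = 256 * K ^ 4 := by ring
  have hprod2 : (K + k) * ((2 * R + 2) * (2 * (2 * R + 1) + 1)) ≤ n := by
    calc (K + k) * ((2 * R + 2) * (2 * (2 * R + 1) + 1)) ≤ (2 * K) * (45 * (256 * K ^ 4)) := by
          apply Nat.mul_le_mul (by omega)
          exact hprod.trans (Nat.mul_le_mul_left _ hc2)
      _ = 23040 * K ^ 5 := by ring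
      _ ≤ n := hpow
  have hprod3 : (2 * R + 2) * (2 * (2 * R + 1) + 1) ≤ n := by
    calc (2 * R + 2) * (2 * (2 * R + 1) + 1) = 1 * ((2 * R + 2) * (2 * (2 * R + 1) + 1)) := by ring
      _ ≤ (K + k) * ((2 * R + 2) * (2 * (2 * R + 1) + 1)) := Nat.mul_le_mul_right _ (by omega)
      _ ≤ n := hprod2
  have hβw : w * (16 * β * K) ≤ n := by rw [← hc]; exact hwc
  have hβw2 : 720 * (β * w) ≤ n := by
    calc 720 * (β * w) = w * (16 * β * 45) := by ring
      _ ≤ w * (16 * β * K) := by gcongr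
      _ ≤ n := hβw
  have hβw1 : 1 ≤ β * w := Nat.mul_pos (by omega) hwpos
  have hwβ : w * (3 * β + 1) ≤ 4 * (β * w) := by
    calc w * (3 * β + 1) ≤ w * (4 * β) := Nat.mul_le_mul_left _ (by omega)
      _ = 4 * (β * w) := by ring
  refine ⟨hn1, ?_, ?_, by omega, by omega, ?_, ?_, ?_, hprod2, ?_⟩
  · have : β < 2 ^ β := Nat.lt_two_pow_self
    have h2 : 2 ^ β ≤ 2 ^ t := Nat.pow_le_pow_right (by norm_num) (by omega)
    omega
  · have h2 : 2 ^ β ≤ 2 ^ t := Nat.pow_le_pow_right (by norm_num) (by omega)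
    omega
  · omega
  · have h1 : k < 2 ^ k := Nat.lt_two_pow_self
    calc k * n ≤ 2 ^ k * n := Nat.mul_le_mul_right _ h1.le
      _ < 2 ^ k * 2 ^ K := Nat.mul_lt_mul_of_pos_left hup (by positivity)
      _ = 2 ^ (K + k) := by rw [← pow_add, add_comm]
  · have h1 : 2 ^ K ≤ 2 ^ w := Nat.pow_le_pow_right (by norm_num) hwK
    omega
  · intro p hp1 hp2
    have hpn : p ≤ n := by omega
    have hpK : p ≤ 2 ^ K := by omega
    constructor
    · calc p ^ (4 * (w * (3 * β + 1))) ≤ (2 ^ K) ^ (4 * (w * (3 * β + 1))) :=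
            Nat.pow_le_pow_left hpK _
        _ = 2 ^ (K * (4 * (w * (3 * β + 1)))) := by rw [← pow_mul]
        _ ≤ 2 ^ n := by
            apply Nat.pow_le_pow_right (by norm_num)
            calc K * (4 * (w * (3 * β + 1))) ≤ K * (4 * (4 * (β * w))) := by gcongr
              _ = w * (16 * β * K) := by ring
              _ ≤ n := hβw
    · have h9 : 9 * (p - 1) ≤ 2 ^ (K + 4) := by
        have : 2 ^ (K + 4) = 16 * 2 ^ K := by ring
        omega
      calc (9 * (p - 1)) ^ (2 * R + 1) ≤ (2 ^ (K + 4)) ^ (2 * R + 1) :=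
            Nat.pow_le_pow_left h9 _
        _ = 2 ^ ((K + 4) * (2 * R + 1)) := by rw [← pow_mul]
        _ ≤ 2 ^ n := by
            apply Nat.pow_le_pow_right (by norm_num)
            calc (K + 4) * (2 * R + 1) ≤ (2 * K) * (5 * c) := by
                  apply Nat.mul_le_mul <;> omega
              _ ≤ (2 * K) * (5 * (16 * K ^ 2)) := by gcongr
              _ = 160 * K ^ 3 := by ring
              _ ≤ n := by omega

end Pool.Agent.Lib.MP_4c536a_lc.BGU
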