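import Pool.Agent.Lib.MP_4c536a_lc.BGU.Defs

/-!
# MP_4c536a_lc, board BGU: rows SND and BEY
-/

set_option autoImplicit false

namespace Pool.Agent.Lib.MP_4c536a_lc.BGU

open Finset
open Pool.Agent.Lib.MP_2eed13_lc.LCA
open Pool.Agent.Lib.MP_4c536a_lc.BGD (Pic bord Tile InLocal frontier bgrid tileAt orient HasPic IsCS
  pick LbaStatement RedStatement UnaStatement)

section snd

variable {Γ : Type} [Finite Γ] (D : Option Γ → Option Γ → Option Γ → Option Γ → Prop)

/-- the values of the table -/
noncomputable def snd_val (a m n B : ℕ) (ptr : ℕ → ℕ → ℕ) (i j : ℕ) : Option (Option Γ) :=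
  (tabV D a m n B ptr i j).1

theorem snd_val_succ (a m n B : ℕ) (ptr : ℕ → ℕ → ℕ) (i j : ℕ) :
    ∃ d, snd_val D a m n B ptr (i + 1) (j + 1) = nextV D (kind m n i j)
      (snd_val D a m n B ptr (i + 1) j) (snd_val D a m n B ptr i j)
      (snd_val D a m n B ptr i (j + 1)) d := by
  exact ⟨_, congrArg Prod.fst (tab_succ (nextV D) (costV D) (some none) a m n B ptr i j)⟩

theorem snd_val_left (a m n B : ℕ) (ptr : ℕ → ℕ → ℕ) (j : ℕ) :
    snd_val D a m n B ptr 0 j = some none := rfl

theorem snd_val_right (a m n B : ℕ) (ptr : ℕ → ℕ → ℕ) (i : ℕ) :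
    snd_val D a m n B ptr i 0 = some none := by
  exact congrArg Prod.fst (tab_zero_right (nextV D) (costV D) (some none) a m n B ptr i)

/-- the three neighbours of a good place are good, and the value -/
theorem snd_nextV {v : ℕ} {l o r : Option (Option Γ)} {d : ℕ} {y : Option Γ}
    (h : nextV D v l o r d = some y) : ∃ a c b, l = some a ∧ o = some c ∧ r = some b ∧
      (v = 0 → ∃ x, y = some x ∧ D (some x) a b c) ∧ (v = 1 → y = none ∧ D none a b c) ∧
      (v ≠ 0 → y = none) := by
  classical
  rcases l with _ | a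
  · simp [nextV] at h
  rcases o with _ | c
  · simp [nextV] at h
  rcases r with _ | b
  · simp [nextV] at h
  refine ⟨a, c, b, rfl, rfl, rfl, ?_, ?_, ?_⟩
  · intro hv
    subst hv
    have h' : (pick (2 ^ cst D a b c) (fun x => D (some x) a b c) d).map some = some y := by
      simpa [nextV] using h
    rw [Option.map_eq_some_iff] at h'
    obtain ⟨x, hx, rfl⟩ := h'
    exact ⟨x, rfl, BGD.pick_spec (p := fun x => D (some x) a b c) hx⟩
  · intro hv
    subst hv
    have h' : (if D none a b c then some (none : Option Γ) else none) = some y := by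
      simpa [nextV] using h
    split_ifs at h' with hD
    · exact ⟨(Option.some.inj h').symm, hD⟩
  · intro hv
    by_cases h1 : v = 1
    · subst h1
      have h' : (if D none a b c then some (none : Option Γ) else none) = some y := by
        simpa [nextV] using h
      split_ifs at h' with hD
      · exact (Option.some.inj h').symm
    · have h' : some (none : Option Γ) = some y := by
        simpa [nextV, hv, h1] using h
      exact (Option.some.inj h').symm

theorem snd_good (a m n B : ℕ) (ptr : ℕ → ℕ → ℕ) (i j : ℕ)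
    (h : ∃ y, snd_val D a m n B ptr (i + 1) (j + 1) = some y) :
    (∃ y, snd_val D a m n B ptr (i + 1) j = some y) ∧
      (∃ y, snd_val D a m n B ptr i (j + 1) = some y) := by
  obtain ⟨y, hy⟩ := h
  obtain ⟨d, hd⟩ := snd_val_succ D a m n B ptr i j
  rw [hd] at hy
  obtain ⟨a', c, b, h1, h2, h3, -⟩ := snd_nextV D hy
  exact ⟨⟨a', h1⟩, ⟨b, h3⟩⟩

theorem snd_down_right (a m n B : ℕ) (ptr : ℕ → ℕ → ℕ) (i : ℕ) (k : ℕ) :
    ∀ j, (∃ y, snd_val D a m n B ptr (i + 1) (j + k) = some y) →
      ∃ y, snd_val D a m n B ptr (i + 1) j = some y := by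
  induction k with
  | zero => intro j h; exact h
  | succ k ih =>
    intro j h
    refine ih j (snd_good D a m n B ptr i (j + k) ?_).1
    exact h

theorem snd_down_left (a m n B : ℕ) (ptr : ℕ → ℕ → ℕ) (j : ℕ) (k : ℕ) :
    ∀ i, (∃ y, snd_val D a m n B ptr (i + k) (j + 1) = some y) →
      ∃ y, snd_val D a m n B ptr i (j + 1) = some y := by
  induction k with
  | zero => intro i h; exact h
  | succ k ih =>
    intro i h
    refine ih i (snd_good D a m n B ptr (i + k) j ?_).2
    exact h

theorem snd_all (a m n B : ℕ) (ptr : ℕ → ℕ → ℕ) (M M' : ℕ)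
    (h : ∃ y, snd_val D a m n B ptr (M + 1) (M' + 1) = some y) (i j : ℕ)
    (hi : i ≤ M + 1) (hj : j ≤ M' + 1) : ∃ y, snd_val D a m n B ptr i j = some y := by
  rcases i with _ | i
  · exact ⟨none, snd_val_left D a m n B ptr j⟩
  rcases j with _ | j
  · exact ⟨none, snd_val_right D a m n B ptr (i + 1)⟩
  have h1 : ∃ y, snd_val D a m n B ptr (M + 1) (j + 1) = some y := by
    refine snd_down_right D a m n B ptr M (M' - j) (j + 1) ?_
    have e : j + 1 + (M' - j) = M' + 1 := by omega
    rw [e]
    exact h
  refine snd_down_left D a m n B ptr j (M - i) (i + 1) ?_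
  have e : i + 1 + (M - i) = M + 1 := by omega
  rw [e]
  exact h1

end snd

theorem snd_proof : SndStatement := by
  classical
  intro Γ _ D a m n B ptr M M' hm hn hM hM' h
  have hall := snd_all D a m n B ptr M M' ⟨none, h⟩
  set V := snd_val D a m n B ptr with hV
  let P : ℕ → ℕ → Option Γ := fun i j =>
    if (1 ≤ i ∧ i ≤ m) ∧ 1 ≤ j ∧ j ≤ n then (V i j).join else none
  -- the values inside and outside
  have hval : ∀ i j, i ≤ m + 1 → j ≤ n + 1 → V i j = some (P i j) ∧
      ((P i j).isSome ↔ (1 ≤ i ∧ i ≤ m) ∧ 1 ≤ j ∧ j ≤ n) := by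
    intro i j hi hj
    obtain ⟨y, hy⟩ := hall i j (by omega) (by omega)
    rcases i with _ | i
    · have e : P 0 j = none := by
        simp only [P]
        rw [if_neg (by omega)]
      rw [e]
      exact ⟨snd_val_left D a m n B ptr j, by simp⟩
    rcases j with _ | j
    · have e : P (i + 1) 0 = none := by
        simp only [P]
        rw [if_neg (by omega)]
      rw [e]
      exact ⟨snd_val_right D a m n B ptr (i + 1), by simp⟩
    obtain ⟨d, hd⟩ := snd_val_succ D a m n B ptr i j
    have hy' := hy
    rw [← hV] at hd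
    rw [hd] at hy
    obtain ⟨a', c, b, -, -, -, h0, -, h2⟩ := snd_nextV D hy
    by_cases hk : i < m ∧ j < n
    · have hkind : kind m n i j = 0 := by
        unfold kind
        rw [if_pos hk]
      obtain ⟨x, rfl, -⟩ := h0 hkind
      have e : P (i + 1) (j + 1) = some x := by
        simp only [P]
        rw [if_pos (by omega), hy']
        rfl
      rw [e, hy']
      refine ⟨rfl, ?_⟩
      simp only [Option.isSome_some, true_iff]
      omega
    · have hkind : kind m n i j ≠ 0 := by
        unfold kind
        rw [if_neg hk]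
        split_ifs <;> omega
      have hy0 := h2 hkind
      subst hy0
      have e : P (i + 1) (j + 1) = none := by
        simp only [P]
        rw [if_neg (by omega)]
      rw [e, hy']
      refine ⟨rfl, ?_⟩
      simp only [Option.isSome_none, Bool.false_eq_true, false_iff]
      omega
  refine ⟨P, ?_, ?_⟩
  · intro i j
    by_cases hij : i ≤ m + 1 ∧ j ≤ n + 1
    · exact (hval i j hij.1 hij.2).2
    · have e : P i j = none := by
        simp only [P]
        rw [if_neg (by omega)]
      rw [e]
      simp only [Option.isSome_none, Bool.false_eq_true, false_iff]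
      omega
  · intro i hi j hj
    obtain ⟨d, hd⟩ := snd_val_succ D a m n B ptr i j
    rw [← hV, (hval (i + 1) (j + 1) (by omega) (by omega)).1,
      (hval (i + 1) j (by omega) (by omega)).1, (hval i j (by omega) (by omega)).1,
      (hval i (j + 1) (by omega) (by omega)).1] at hd
    obtain ⟨a', c, b, h1, h2, h3, h4, h5, -⟩ := snd_nextV D hd.symm
    have e1 := Option.some.inj h1
    have e2 := Option.some.inj h2
    have e3 := Option.some.inj h3
    rw [e1, e2, e3]
    by_cases hk : i < m ∧ j < n
    · have hkind : kind m n i j = 0 := by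
        unfold kind
        rw [if_pos hk]
      obtain ⟨x, hx, hD⟩ := h4 hkind
      rw [hx]
      exact hD
    · have hkind : kind m n i j = 1 := by
        unfold kind
        rw [if_neg hk, if_pos ⟨hi, hj⟩]
      obtain ⟨hx, hD⟩ := h5 hkind
      rw [hx]
      exact hD

theorem bey_proof : BeyStatement := by
  intro Γ _ D a m n B ptr M M' hM hM'
  obtain ⟨d, hd⟩ := snd_val_succ D a m n B ptr M M'
  have hkind : kind m n M M' ≠ 0 := by
    unfold kind
    rw [if_neg (by omega)]
    split_ifs <;> omega
  rcases h : snd_val D a m n B ptr (M + 1) (M' + 1) with _ | y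
  · exact Or.inr h
  · left
    rw [hd] at h
    obtain ⟨a', c, b, -, -, -, -, -, h2⟩ := snd_nextV D h
    have hy := h2 hkind
    subst hy
    rw [← hd] at h
    exact h

end Pool.Agent.Lib.MP_4c536a_lc.BGU
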