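import Pool.Agent.Lib.MP_4c536a_lc.BGU.Defs

/-!
# MP_4c536a_lc, board BGU, row STR: a string of guesses

`a` is the sum of the `d t` shifted by the number of bits of the guesses before `t`.
-/

set_option autoImplicit false

open Finset

namespace Pool.Agent.Lib.MP_4c536a_lc.BGU

/-- Row STR. -/
theorem str_proof : StrStatement := by
  intro w d hd K
  induction K with
  | zero =>
    refine ⟨0, ?_, fun t ht => absurd ht (Nat.not_lt_zero t)⟩
    rw [sum_range_zero, pow_zero]
    exact Nat.zero_lt_one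
  | succ K ih =>
    obtain ⟨a, ha, hat⟩ := ih
    have hs : ∀ t, t < K → ∑ t' ∈ range t, w t' + w t ≤ ∑ t' ∈ range K, w t' := by
      intro t ht
      rw [← sum_range_succ]
      exact sum_le_sum_of_subset (range_subset_range.2 ht)
    refine ⟨a + 2 ^ (∑ t ∈ range K, w t) * d K, ?_, ?_⟩
    · rw [sum_range_succ, pow_add]
      calc a + 2 ^ (∑ t ∈ range K, w t) * d K
          < 2 ^ (∑ t ∈ range K, w t) + 2 ^ (∑ t ∈ range K, w t) * d K := by omega
        _ = 2 ^ (∑ t ∈ range K, w t) * (d K + 1) := by ring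
        _ ≤ 2 ^ (∑ t ∈ range K, w t) * 2 ^ w K := Nat.mul_le_mul_left _ (hd K)
    · intro t ht
      rcases Nat.lt_succ_iff_lt_or_eq.1 ht with ht | rfl
      · obtain ⟨c, hc⟩ := Nat.exists_eq_add_of_le (hs t ht)
        have e : a + 2 ^ (∑ t' ∈ range K, w t') * d K =
            a + 2 ^ (∑ t' ∈ range t, w t') * (2 ^ w t * (2 ^ c * d K)) := by
          rw [hc, pow_add, pow_add]; ring
        rw [e, Nat.add_mul_div_left _ _ (Nat.two_pow_pos _), Nat.add_mul_mod_self_left]
        exact hat t ht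
      · rw [Nat.add_mul_div_left _ _ (Nat.two_pow_pos _), Nat.div_eq_of_lt ha, zero_add]
        exact Nat.mod_eq_of_lt (hd t)

end Pool.Agent.Lib.MP_4c536a_lc.BGU
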