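import Pool.Agent.Lib.MP_4c536a_lc.BGU.Defs
import Pool.Agent.Lib.MP_4c536a_lc.BG.Blk

/-!
# Board BGU, row TRE: the tree of blocks
-/

set_option autoImplicit false

namespace Pool.Agent.Lib.MP_4c536a_lc.BGU

open Finset
open Pool.Agent.Lib.MP_2eed13_lc.LCA
open Pool.Agent.Lib.MP_2eed13_lc.LCA.H35 (num num_lt num_add num_div)
open Pool.Agent.Lib.MP_4c536a_lc.BG (blk_pow blk_powq blk_split blk_lt)

namespace Tre

/-- The values of the table. -/
def tb (β T B R' g a m n pt i j : ℕ) : ℕ := (tabN (2 ^ β) T a m n B (ptrT g R' pt) i j).1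

theorem tb_lt (β T B R' g a m n pt i j : ℕ) : tb β T B R' g a m n pt i j < 2 ^ β := by
  unfold tb
  cases i with
  | zero => rw [tabN, tab_zero_left]; positivity
  | succ i =>
    cases j with
    | zero => rw [tabN, tab_zero_right]; positivity
    | succ j =>
      rw [tabN, tab_succ]
      unfold cellStep nextN rule5 dig
      exact Nat.mod_lt _ (by positivity)

theorem tb_zero_left (β T B R' g a m n pt j : ℕ) : tb β T B R' g a m n pt 0 j = 0 := by
  unfold tb
  rw [tabN, tab_zero_left]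

theorem tb_zero_right (β T B R' g a m n pt i : ℕ) : tb β T B R' g a m n pt i 0 = 0 := by
  unfold tb
  rw [tabN, tab_zero_right]

/-- The digits of the content of the block `(I, J)`. -/
def fd (β T B R' g a m n pt I J z : ℕ) : ℕ :=
  tb β T B R' g a m n pt (I * B + (B - (z - B))) (J * B + min z B)

/-- The content of the block `(I, J)`. -/
def S (β T B R' g a m n pt I J : ℕ) : ℕ := num (2 ^ β) (fd β T B R' g a m n pt I J) (2 * B + 1)

/-- The content of a node. -/
def ctn (β T B R' g a m n pt t p : ℕ) : ℕ :=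
  if R' + 1 ≤ t + p ∧ p + 1 ≤ t + R' then
    S β T B R' g a m n pt ((t + R' - (p + 1)) / 2) ((t + p - (R' + 1)) / 2) else 0

theorem half1 (β T B R' g a m n pt I J c0 : ℕ) (h0 : J = 0 → c0 = 0)
    (h1 : 1 ≤ J → c0 = S β T B R' g a m n pt I (J - 1)) :
    c0 / (2 ^ β) ^ B % (2 ^ β) ^ (B + 1) =
      num (2 ^ β) (fun z => tb β T B R' g a m n pt (I * B + (B - z)) (J * B + (z - B)))
        (B + 1) := by
  rcases Nat.eq_zero_or_pos J with hJ | hJ
  · rw [h0 hJ, Nat.zero_div, Nat.zero_mod, hJ]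
    unfold num
    symm
    refine sum_eq_zero fun k hk => ?_
    have hk' : k < B + 1 := mem_range.1 hk
    have e : 0 * B + (k - B) = 0 := by rw [zero_mul]; omega
    show tb β T B R' g a m n pt (I * B + (B - k)) (0 * B + (k - B)) * (2 ^ β) ^ k = 0
    rw [e, tb_zero_right, zero_mul]
  · rw [h1 hJ]
    unfold S
    have e1 : 2 * B + 1 = B + (B + 1) := by ring
    rw [e1, num_div (2 ^ β) (fd β T B R' g a m n pt I (J - 1))
        (fun k => tb_lt _ _ _ _ _ _ _ _ _ _ _) B (B + 1),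
      Nat.mod_eq_of_lt (num_lt (2 ^ β) (fun k => fd β T B R' g a m n pt I (J - 1) (B + k))
        (fun k => tb_lt _ _ _ _ _ _ _ _ _ _ _) (B + 1))]
    unfold num
    refine sum_congr rfl fun k hk => ?_
    have hk' : k < B + 1 := mem_range.1 hk
    unfold fd
    have e2 : B - (B + k - B) = B - k := by omega
    have e3 : (J - 1) * B + min (B + k) B = J * B + (k - B) := by
      have e4 : (J - 1) * B + B = J * B := by
        calc (J - 1) * B + B = ((J - 1) + 1) * B := by ring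
          _ = J * B := by rw [Nat.sub_add_cancel hJ]
      have e5 : min (B + k) B = B := min_eq_right (by omega)
      rw [e5, e4]
      omega
    simp only [e2, e3]

theorem half2 (β T B R' g a m n pt I J c2 : ℕ) (h0 : I = 0 → c2 = 0)
    (h1 : 1 ≤ I → c2 = S β T B R' g a m n pt (I - 1) J) :
    c2 / 2 ^ β % (2 ^ β) ^ B =
      num (2 ^ β) (fun z => tb β T B R' g a m n pt (I * B + (B - (B + 1 + z)))
        (J * B + (B + 1 + z - B))) B := by
  rcases Nat.eq_zero_or_pos I with hI | hI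
  · rw [h0 hI, Nat.zero_div, Nat.zero_mod, hI]
    unfold num
    symm
    refine sum_eq_zero fun k hk => ?_
    have e : 0 * B + (B - (B + 1 + k)) = 0 := by rw [zero_mul]; omega
    show tb β T B R' g a m n pt (0 * B + (B - (B + 1 + k))) (J * B + (B + 1 + k - B)) *
      (2 ^ β) ^ k = 0
    rw [e, tb_zero_left, zero_mul]
  · rw [h1 hI]
    unfold S
    have e1 : 2 * B + 1 = 1 + (B + B) := by ring
    have e0 : (2 : ℕ) ^ β = (2 ^ β) ^ 1 := by rw [pow_one]
    have e6 : num (2 ^ β) (fd β T B R' g a m n pt (I - 1) J) (2 * B + 1) / 2 ^ β =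
        num (2 ^ β) (fun k => fd β T B R' g a m n pt (I - 1) J (1 + k)) (B + B) := by
      conv_lhs => rw [e1]; rhs; rw [e0]
      exact num_div (2 ^ β) (fd β T B R' g a m n pt (I - 1) J)
        (fun k => tb_lt _ _ _ _ _ _ _ _ _ _ _) 1 (B + B)
    rw [e6, num_add, Nat.add_mul_mod_self_left,
      Nat.mod_eq_of_lt (num_lt (2 ^ β) (fun k => fd β T B R' g a m n pt (I - 1) J (1 + k))
        (fun k => tb_lt _ _ _ _ _ _ _ _ _ _ _) B)]
    unfold num
    refine sum_congr rfl fun k hk => ?_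
    have hk' : k < B := mem_range.1 hk
    unfold fd
    have e2 : (I - 1) * B + (B - (1 + k - B)) = I * B + (B - (B + 1 + k)) := by
      have e4 : (I - 1) * B + B = I * B := by
        calc (I - 1) * B + B = ((I - 1) + 1) * B := by ring
          _ = I * B := by rw [Nat.sub_add_cancel hI]
      have e5 : B - (1 + k - B) = B := by omega
      rw [e5, e4]
      omega
    have e3 : J * B + min (1 + k) B = J * B + (B + 1 + k - B) := by
      have e5 : min (1 + k) B = 1 + k := min_eq_left (by omega)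
      rw [e5]
      omega
    simp only [e2, e3]

/-- The start of the scan. -/
theorem start (β T B R' g a m n pt I J c0 c2 : ℕ) (h0 : J = 0 → c0 = 0)
    (h1 : 1 ≤ J → c0 = S β T B R' g a m n pt I (J - 1)) (h2 : I = 0 → c2 = 0)
    (h3 : 1 ≤ I → c2 = S β T B R' g a m n pt (I - 1) J) :
    c0 / (2 ^ β) ^ B % (2 ^ β) ^ (B + 1) + c2 / 2 ^ β % (2 ^ β) ^ B * (2 ^ β) ^ (B + 1) =
      ∑ z ∈ range (2 * B + 1), (tabN (2 ^ β) T a m n B (ptrT g R' pt) (I * B + (B - z))
        (J * B + (z - B))).1 * (2 ^ β) ^ z := by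
  have e1 : 2 * B + 1 = (B + 1) + B := by ring
  rw [e1]
  have h4 := num_add (2 ^ β) (fun z => tb β T B R' g a m n pt (I * B + (B - z)) (J * B + (z - B)))
    (B + 1) B
  have h5 : (∑ z ∈ range ((B + 1) + B), (tabN (2 ^ β) T a m n B (ptrT g R' pt) (I * B + (B - z))
        (J * B + (z - B))).1 * (2 ^ β) ^ z) =
      num (2 ^ β) (fun z => tb β T B R' g a m n pt (I * B + (B - z)) (J * B + (z - B)))
        ((B + 1) + B) := rfl
  rw [h5, h4, half1 β T B R' g a m n pt I J c0 h0 h1, half2 β T B R' g a m n pt I J c2 h2 h3]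
  rw [mul_comm (num _ _ B)]

end Tre

open Tre

/-- The block map on three blocks with index. -/
theorem tre_GU (C β T B R' g a m n pt : ℕ) (hβ : 3 ≤ β) (hB : 2 ≤ B)
    (hC : 2 ^ (3 * (B * (3 * β + 1))) ≤ C) (hg : 2 ^ g ≤ C)
    (c0 c1 c2 a0 a1 a2 : ℕ) (h0 : c0 < 2 ^ (3 * B * β)) (h1 : c1 < 2 ^ (3 * B * β))
    (h2 : c2 < 2 ^ (3 * B * β)) (g0 : a0 < 2 ^ B) (g1 : a1 < 2 ^ B) (g2 : a2 < 2 ^ B) :
    GU C β T B R' g a m n pt ((c0 + a0 * 2 ^ (3 * B * β)) +
      (c1 + a1 * 2 ^ (3 * B * β)) * 2 ^ (B * (3 * β + 1)) +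
      (c2 + a2 * 2 ^ (3 * B * β)) * 2 ^ (2 * (B * (3 * β + 1)))) =
    (if R' + 1 ≤ (a1 + (2 * R' + 1)) / (2 * R' + 1) + (a1 + (2 * R' + 1)) % (2 * R' + 1) ∧
        (a1 + (2 * R' + 1)) % (2 * R' + 1) + 1 ≤ (a1 + (2 * R' + 1)) / (2 * R' + 1) + R' then
      runTo (scanStep C (2 ^ β) T B a m n
        (((a1 + (2 * R' + 1)) / (2 * R' + 1) + R' - ((a1 + (2 * R' + 1)) % (2 * R' + 1) + 1)) / 2)
        (((a1 + (2 * R' + 1)) / (2 * R' + 1) + (a1 + (2 * R' + 1)) % (2 * R' + 1) - (R' + 1)) / 2))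
        (B * B) (c0 / (2 ^ β) ^ B % (2 ^ β) ^ (B + 1) +
          c2 / 2 ^ β % (2 ^ β) ^ B * (2 ^ β) ^ (B + 1) +
          dig (2 ^ g) pt (a1 + (2 * R' + 1)) * (2 ^ β) ^ (2 * B + 1)) % (2 ^ β) ^ (2 * B + 1)
      else 0) + (a1 + (2 * R' + 1)) % 2 ^ B * 2 ^ (3 * B * β) := by
  have e1 : B * (3 * β + 1) = 3 * B * β + B := by ring
  have hb1 : β ≤ B * β := Nat.le_mul_of_pos_left _ (by omega)
  have e2 : 3 * B * β = B * β + B * β + B * β := by ring
  have p1 : powc 2 (B * (3 * β + 1)) C = 2 ^ (B * (3 * β + 1)) := blk_pow hC (by omega)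
  have p2 : powc 2 (3 * B * β) C = 2 ^ (3 * B * β) := blk_pow hC (by omega)
  have p3 : powc 2 (2 * (B * (3 * β + 1))) C = 2 ^ (2 * (B * (3 * β + 1))) :=
    blk_pow hC (by omega)
  have p4 : powc 2 B C = 2 ^ B := blk_pow hC (by omega)
  have p5 : powc 2 β C = 2 ^ β := blk_pow hC (by omega)
  have hm : β * B = B * β := mul_comm _ _
  have p6 : powc (2 ^ β) B C = (2 ^ β) ^ B := blk_powq hC (by omega)
  have p7 : powc (2 ^ β) (B + 1) C = (2 ^ β) ^ (B + 1) := blk_powq hC (by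
    have : β * (B + 1) = B * β + β := by ring
    omega)
  have p8 : powc (2 ^ β) (2 * B + 1) C = (2 ^ β) ^ (2 * B + 1) := blk_powq hC (by
    have : β * (2 * B + 1) = B * β + B * β + β := by ring
    omega)
  have p9 : powc 2 g C = 2 ^ g := min_eq_left hg
  have n1 : (2 : ℕ) ^ (B * (3 * β + 1)) = 2 ^ (3 * B * β) * 2 ^ B := by rw [e1, pow_add]
  have n2 : (2 : ℕ) ^ (2 * (B * (3 * β + 1))) =
      (2 ^ (3 * B * β) * 2 ^ B) * (2 ^ (3 * B * β) * 2 ^ B) := by
    rw [two_mul, pow_add, n1]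
  obtain ⟨s1, s2, s3, s4, s5⟩ := blk_split (2 ^ (3 * B * β)) (2 ^ B) c0 c1 c2 a0 a1 a2 h0 h1 h2
    g0 g1 g2
  unfold GU startU idxU
  rw [p1, p2, p3, p4, p5, p6, p7, p8, p9, n1, n2, s1, s2, s3, s5]

theorem tre_pow {β B : ℕ} (hB : 2 ≤ B) : (2 ^ β) ^ (2 * B + 1) ≤ 2 ^ (3 * B * β) := by
  rw [← pow_mul]
  refine Nat.pow_le_pow_right (by norm_num) ?_
  calc β * (2 * B + 1) ≤ β * (3 * B) := Nat.mul_le_mul_left _ (by omega)
    _ = 3 * B * β := mul_comm _ _

theorem tre_tval (h : ScnStatement) (C β T B R' g a m n pt : ℕ) (hβ : 3 ≤ β) (hB : 2 ≤ B)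
    (hC : 2 ^ (3 * (B * (3 * β + 1))) ≤ C) (hC2 : 2 ^ (2 ^ β) ≤ C) (hg : 2 ^ g ≤ C) (ha : a < C)
    (hR : (R' + 1) * (2 * R' + 1) ≤ 2 ^ B) :
    ∀ t p : ℕ, t ≤ R' → t ≤ p → p + t ≤ 2 * R' → ∃ c, c < 2 ^ (3 * B * β) ∧
      ((t + p + R') % 2 = 1 → c = ctn β T B R' g a m n pt t p) ∧
      tval (B * (3 * β + 1)) (GU C β T B R' g a m n pt) (LU C β B) t p =
        c + (t * (2 * R' + 1) + p) * 2 ^ (3 * B * β) := by
  have hidx : ∀ t p : ℕ, t ≤ R' → p ≤ 2 * R' → t * (2 * R' + 1) + p < 2 ^ B := by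
    intro t p ht hp
    calc t * (2 * R' + 1) + p < t * (2 * R' + 1) + (2 * R' + 1) := by omega
      _ = (t + 1) * (2 * R' + 1) := by ring
      _ ≤ (R' + 1) * (2 * R' + 1) := Nat.mul_le_mul_right _ (by omega)
      _ ≤ 2 ^ B := hR
  have e1 : B * (3 * β + 1) = 3 * B * β + B := by ring
  intro t
  induction t with
  | zero =>
    intro p _ _ hp
    refine ⟨0, by positivity, ?_, ?_⟩
    · intro _
      unfold ctn
      rw [if_neg (by omega)]
    · show LU C β B p = _
      unfold LU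
      rw [blk_pow (e := B) hC (by omega), blk_pow (e := 3 * B * β) hC (by omega),
        Nat.mod_eq_of_lt]
      · ring
      · have := hidx 0 p (Nat.zero_le _) (by omega)
        rwa [zero_mul, zero_add] at this
  | succ t ih =>
    intro p ht hp htp
    obtain ⟨c0, b0, d0, v0⟩ := ih (p - 1) (by omega) (by omega) (by omega)
    obtain ⟨c1, b1, -, v1⟩ := ih p (by omega) (by omega) (by omega)
    obtain ⟨c2, b2, d2, v2⟩ := ih (p + 1) (by omega) (by omega) (by omega)
    have i1 : t * (2 * R' + 1) + p + (2 * R' + 1) = (t + 1) * (2 * R' + 1) + p := by ring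
    have i2 : ((t + 1) * (2 * R' + 1) + p) / (2 * R' + 1) = t + 1 := by
      rw [add_comm, Nat.add_mul_div_right _ _ (by omega), Nat.div_eq_of_lt (by omega), zero_add]
    have i3 : ((t + 1) * (2 * R' + 1) + p) % (2 * R' + 1) = p := by
      rw [add_comm, Nat.add_mul_mod_self_right, Nat.mod_eq_of_lt (by omega)]
    have hG := tre_GU C β T B R' g a m n pt hβ hB hC hg c0 c1 c2 (t * (2 * R' + 1) + (p - 1))
      (t * (2 * R' + 1) + p) (t * (2 * R' + 1) + (p + 1)) b0 b1 b2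
      (hidx t (p - 1) (by omega) (by omega)) (hidx t p (by omega) (by omega))
      (hidx t (p + 1) (by omega) (by omega))
    rw [i1, i2, i3, Nat.mod_eq_of_lt (hidx (t + 1) p ht (by omega))] at hG
    refine ⟨if R' + 1 ≤ t + 1 + p ∧ p + 1 ≤ t + 1 + R' then
        runTo (scanStep C (2 ^ β) T B a m n ((t + 1 + R' - (p + 1)) / 2)
          ((t + 1 + p - (R' + 1)) / 2)) (B * B) (c0 / (2 ^ β) ^ B % (2 ^ β) ^ (B + 1) +
          c2 / 2 ^ β % (2 ^ β) ^ B * (2 ^ β) ^ (B + 1) +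
          dig (2 ^ g) pt ((t + 1) * (2 * R' + 1) + p) * (2 ^ β) ^ (2 * B + 1)) %
            (2 ^ β) ^ (2 * B + 1)
        else 0, ?_, ?_, ?_⟩
    · split_ifs
      · exact lt_of_lt_of_le (Nat.mod_lt _ (by positivity)) (tre_pow hB)
      · positivity
    · intro hpar
      unfold ctn
      split_ifs with hc
      · obtain ⟨I, hI⟩ : ∃ I, t + 1 + R' - (p + 1) = 2 * I := ⟨(t + 1 + R' - (p + 1)) / 2, by omega⟩
        obtain ⟨J, hJ⟩ : ∃ J, t + 1 + p - (R' + 1) = 2 * J := ⟨(t + 1 + p - (R' + 1)) / 2, by omega⟩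
        have hI2 : (t + 1 + R' - (p + 1)) / 2 = I := by omega
        have hJ2 : (t + 1 + p - (R' + 1)) / 2 = J := by omega
        rw [hI2, hJ2]
        have hp0 := d0 (by omega)
        have hp2 := d2 (by omega)
        unfold ctn at hp0 hp2
        have k0 : J = 0 → c0 = 0 := by
          intro hJ0
          rw [hp0, if_neg (by omega)]
        have k1 : 1 ≤ J → c0 = S β T B R' g a m n pt I (J - 1) := by
          intro hJ1
          rw [hp0, if_pos (by omega)]
          congr 1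
          · omega
          · omega
        have k2 : I = 0 → c2 = 0 := by
          intro hI0
          rw [hp2, if_neg (by omega)]
        have k3 : 1 ≤ I → c2 = S β T B R' g a m n pt (I - 1) J := by
          intro hI1
          rw [hp2, if_pos (by omega)]
          congr 1
          · omega
          · omega
        rw [start β T B R' g a m n pt I J c0 c2 k0 k1 k2 k3]
        have hptr : dig (2 ^ g) pt ((t + 1) * (2 * R' + 1) + p) = ptrT g R' pt I J := by
          unfold ptrT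
          have j1 : I + J + 1 = t + 1 := by omega
          have j2 : J + R' - I = p := by omega
          rw [j1, j2]
        rw [hptr]
        have hq1 : 1 ≤ 2 ^ β := Nat.one_le_two_pow
        have hq2 : (2 ^ β) ^ (2 * B + 1) ≤ C := by
          refine (tre_pow hB).trans (le_trans ?_ hC)
          exact Nat.pow_le_pow_right (by norm_num) (by omega)
        rw [h C (2 ^ β) T B a m n I J (ptrT g R' pt) hq1 (by omega) hq2 hC2 ha]
        rfl
      · rfl
    · show GU C β T B R' g a m n pt _ = _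
      rw [v0, v1, v2, hG]

/-- Row TRE. -/
theorem tre_proof (h : ScnStatement) : TreStatement := by
  intro C β T B R g a m n pt hβ hB hC hC2 hg ha hR
  have e1 : B * (3 * β + 1) = 3 * B * β + B := by ring
  have n1 : (2 : ℕ) ^ (B * (3 * β + 1)) = 2 ^ (3 * B * β) * 2 ^ B := by rw [e1, pow_add]
  have hb1 : β ≤ B * β := Nat.le_mul_of_pos_left _ (by omega)
  have e2 : 3 * B * β = B * β + B * β + B * β := by ring
  have p2 : powc 2 (3 * B * β) C = 2 ^ (3 * B * β) := blk_pow hC (by omega)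
  have p4 : powc 2 B C = 2 ^ B := blk_pow hC (by omega)
  have p5 : powc 2 β C = 2 ^ β := blk_pow hC (by omega)
  have p8 : powc (2 ^ β) (2 * B + 1) C = (2 ^ β) ^ (2 * B + 1) := blk_powq hC (by
    have : β * (2 * B + 1) = B * β + B * β + β := by ring
    omega)
  refine ⟨?_, ?_, ?_⟩
  · intro u
    unfold GU
    rw [p2, p4, p5, p8, n1]
    refine blk_lt ?_ (Nat.mod_lt _ (by positivity))
    split_ifs
    · exact lt_of_lt_of_le (Nat.mod_lt _ (by positivity)) (tre_pow hB)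
    · positivity
  · intro i
    unfold LU
    rw [p2, p4, n1]
    have := blk_lt (c := 0) (a := i % 2 ^ B) (M := 2 ^ (3 * B * β)) (B := B) (by positivity)
      (Nat.mod_lt _ (by positivity))
    rwa [zero_add] at this
  · obtain ⟨c, hc, hc1, hv⟩ := tre_tval h C β T B (2 * R + 1) g a m n pt hβ hB hC hC2 hg ha hR
      (2 * R + 1) (2 * R + 1) le_rfl le_rfl (by omega)
    rw [hv, hc1 (by omega)]
    unfold ctn
    rw [if_pos (by omega)]
    have i1 : (2 * R + 1 + (2 * R + 1) - (2 * R + 1 + 1)) / 2 = R := by omega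
    rw [i1]
    unfold S
    have e3 : 2 * B + 1 = B + (1 + B) := by ring
    have hq : (2 : ℕ) ^ (B * β) = (2 ^ β) ^ B := by rw [← pow_mul, mul_comm]
    have hq3 : (2 : ℕ) ^ (3 * B * β) = (2 ^ β) ^ B * ((2 ^ β) ^ B * (2 ^ β) ^ B) := by
      rw [← pow_mul, ← pow_add, ← pow_add]
      congr 1
      ring
    have hpos : 0 < (2 ^ β) ^ B := by positivity
    unfold dig
    rw [hq, hq3, e3, num_add]
    have e4 : ∀ x y z w Q : ℕ, x + Q * y + z * (Q * (Q * w)) = x + (y + z * (Q * w)) * Q := by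
      intro x y z w Q
      ring
    have hlt := num_lt (2 ^ β) (fd β T B (2 * R + 1) g a m n pt R R)
      (fun k => tb_lt _ _ _ _ _ _ _ _ _ _ _) B
    have e5 : num (2 ^ β) (fd β T B (2 * R + 1) g a m n pt R R) B + (2 ^ β) ^ B *
        num (2 ^ β) (fun k => fd β T B (2 * R + 1) g a m n pt R R (B + k)) (1 + B) +
        ((2 * R + 1) * (2 * (2 * R + 1) + 1) + (2 * R + 1)) *
          ((2 ^ β) ^ B * ((2 ^ β) ^ B * (2 ^ β) ^ B)) =
        num (2 ^ β) (fd β T B (2 * R + 1) g a m n pt R R) B +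
        (num (2 ^ β) (fun k => fd β T B (2 * R + 1) g a m n pt R R (B + k)) (1 + B) +
          ((2 * R + 1) * (2 * (2 * R + 1) + 1) + (2 * R + 1)) *
            ((2 ^ β) ^ B * (2 ^ β) ^ B)) * (2 ^ β) ^ B := by ring
    rw [e5, Nat.add_mul_div_right _ _ hpos, Nat.div_eq_of_lt hlt, zero_add, num_add]
    have h2q : (2 ^ β) ^ B = 2 * (2 ^ (β - 1) * (2 ^ β) ^ (B - 1)) := by
      obtain ⟨B', rfl⟩ : ∃ B', B = B' + 1 := ⟨B - 1, by omega⟩
      obtain ⟨β', rfl⟩ : ∃ β', β = β' + 1 := ⟨β - 1, by omega⟩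
      rw [Nat.add_sub_cancel, Nat.add_sub_cancel, pow_succ, pow_succ 2 β']
      ring
    have h2q1 : (2 : ℕ) ^ β = 2 * 2 ^ (β - 1) := by
      obtain ⟨β', rfl⟩ : ∃ β', β = β' + 1 := ⟨β - 1, by omega⟩
      rw [Nat.add_sub_cancel, pow_succ]
      ring
    have e6 : num (2 ^ β) (fun k => fd β T B (2 * R + 1) g a m n pt R R (B + k)) 1 =
        fd β T B (2 * R + 1) g a m n pt R R B := by
      unfold num
      simp
    rw [e6]
    have e7 : fd β T B (2 * R + 1) g a m n pt R R B =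
        (tabN (2 ^ β) T a m n B (ptrT g (2 * R + 1) pt) (R * B + B) (R * B + B)).1 := by
      unfold fd tb
      rw [Nat.sub_self, Nat.sub_zero, min_self]
    rw [e7]
    generalize (tabN (2 ^ β) T a m n B (ptrT g (2 * R + 1) pt) (R * B + B) (R * B + B)).1 = y
    generalize num (2 ^ β) (fun k => fd β T B (2 * R + 1) g a m n pt R R (B + (1 + k))) B = y2
    rw [pow_one]
    conv_lhs => rw [h2q]
    rw [h2q1]
    have e8 : y + 2 * 2 ^ (β - 1) * y2 + ((2 * R + 1) * (2 * (2 * R + 1) + 1) + (2 * R + 1)) *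
        (2 * (2 ^ (β - 1) * (2 * 2 ^ (β - 1)) ^ (B - 1)) *
          (2 * (2 ^ (β - 1) * (2 * 2 ^ (β - 1)) ^ (B - 1)))) =
        y + 2 * (2 ^ (β - 1) * y2 + ((2 * R + 1) * (2 * (2 * R + 1) + 1) + (2 * R + 1)) *
        ((2 ^ (β - 1) * (2 * 2 ^ (β - 1)) ^ (B - 1)) *
          (2 * (2 ^ (β - 1) * (2 * 2 ^ (β - 1)) ^ (B - 1))))) := by ring
    rw [e8, Nat.add_mul_mod_self_left]

end Pool.Agent.Lib.MP_4c536a_lc.BGU
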